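import Pool.Agent.MP_908b95_an.Tools

/-! The coefficient space, the bilateral weighted shift and the parity operator. -/

namespace Pool.Agent.MP_908b95_an

open scoped ENNReal
open Complex

/-- the coefficient space -/
abbrev KK : Type := lp (fun _ : ℤ => ℂ) 2

/-- weights of the bilateral shift -/
noncomputable def om (n : ℤ) : ℂ := if 0 ≤ n then 1 else 1 / 2

theorem om_ne (n : ℤ) : om n ≠ 0 := by
  unfold om
  split_ifs <;> norm_num

theorem norm_om_le (n : ℤ) : ‖om n‖ ≤ 1 := by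
  unfold om
  split_ifs <;> norm_num

theorem norm_om_inv_le (n : ℤ) : ‖(om n)⁻¹‖ ≤ 2 := by
  unfold om
  split_ifs <;> norm_num

theorem norm_smul_id_le (c : ℂ) : ‖c • ContinuousLinearMap.id ℂ ℂ‖ ≤ ‖c‖ := by
  rw [norm_smul]
  exact mul_le_of_le_one_right (norm_nonneg _) ContinuousLinearMap.norm_id_le

/-- the bilateral weighted shift -/
noncomputable def WW : KK →L[ℂ] KK :=
  wc (Equiv.subRight 1) (fun n => om (n - 1) • ContinuousLinearMap.id ℂ ℂ) 1
    (fun _ => (norm_smul_id_le _).trans (norm_om_le _))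

/-- its inverse -/
noncomputable def WI : KK →L[ℂ] KK :=
  wc (Equiv.addRight 1) (fun n => (om n)⁻¹ • ContinuousLinearMap.id ℂ ℂ) 2
    (fun _ => (norm_smul_id_le _).trans (norm_om_inv_le _))

/-- the parity operator -/
noncomputable def JJ : KK →L[ℂ] KK :=
  wc (Equiv.refl ℤ) (fun n => ((-1 : ℂ) ^ n) • ContinuousLinearMap.id ℂ ℂ) 1
    (fun n => (norm_smul_id_le _).trans (by rw [norm_zpow, norm_neg, norm_one, one_zpow]))

theorem WW_apply (x : KK) (n : ℤ) : WW x n = om (n - 1) * x (n - 1) := rfl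

theorem WI_apply (x : KK) (n : ℤ) : WI x n = (om n)⁻¹ * x (n + 1) := rfl

theorem JJ_apply (x : KK) (n : ℤ) : JJ x n = (-1 : ℂ) ^ n * x n := rfl

theorem norm_WW_le : ‖WW‖ ≤ 1 := wc_norm_le _ _ _ zero_le_one _

theorem norm_WI_le : ‖WI‖ ≤ 2 := wc_norm_le _ _ _ zero_le_two _

theorem norm_JJ_le : ‖JJ‖ ≤ 1 := wc_norm_le _ _ _ zero_le_one _

theorem WW_WI : WW * WI = 1 := by
  ext x n
  change WW (WI x) n = x n
  rw [WW_apply, WI_apply, sub_add_cancel, mul_inv_cancel_left₀ (om_ne _)]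

theorem WI_WW : WI * WW = 1 := by
  ext x n
  change WI (WW x) n = x n
  rw [WI_apply, WW_apply, add_sub_cancel_right, inv_mul_cancel_left₀ (om_ne _)]

theorem negone_zpow_mul_self (n : ℤ) : (-1 : ℂ) ^ n * (-1 : ℂ) ^ n = 1 := by
  rw [← mul_zpow]
  simp

theorem JJ_JJ : JJ * JJ = 1 := by
  ext x n
  change JJ (JJ x) n = x n
  rw [JJ_apply, JJ_apply, ← mul_assoc, negone_zpow_mul_self, one_mul]

theorem JJ_WW : JJ * WW = -(WW * JJ) := by
  ext x n
  change JJ (WW x) n = -(WW (JJ x) n)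
  rw [JJ_apply, WW_apply, WW_apply, JJ_apply]
  have : (-1 : ℂ) ^ n = -((-1 : ℂ) ^ (n - 1)) := by
    rw [zpow_sub_one₀ (by norm_num)]
    ring
  rw [this]
  ring

/-- basis vectors -/
noncomputable def ee (n : ℤ) : KK := lp.single 2 n (1 : ℂ)

theorem ee_apply (n m : ℤ) : ee n m = if m = n then 1 else 0 := by
  unfold ee
  rw [lp.single_apply]
  by_cases h : m = n
  · subst h
    simp
  · simp [h]

theorem norm_ee (n : ℤ) : ‖ee n‖ = 1 := by
  unfold ee
  rw [lp.norm_single (by norm_num)]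
  simp

theorem WW_ee (n : ℤ) : WW (ee n) = om n • ee (n + 1) := by
  ext m
  rw [WW_apply, ee_apply, lp.coeFn_smul, Pi.smul_apply, ee_apply, smul_eq_mul]
  by_cases h : m = n + 1
  · subst h
    simp
  · have h' : m - 1 ≠ n := by omega
    simp [h, h']

theorem JJ_ee_zero : JJ (ee 0) = ee 0 := by
  ext m
  rw [JJ_apply, ee_apply]
  by_cases h : m = 0
  · subst h
    simp
  · simp [h]

/-- two functionals agree if they agree on the basis -/
theorem functional_ext {φ ψ : KK →L[ℂ] ℂ} (h : ∀ n, φ (ee n) = ψ (ee n)) : φ = ψ := by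
  apply lp.ext_continuousLinearMap (by norm_num)
  intro n
  ext
  simpa [ee] using h n

/-- coefficients of the evaluation functional -/
noncomputable def av (z : ℂ) (n : ℤ) : ℂ := if 0 ≤ n then z ^ n else (2 * z) ^ n

theorem av_zero (z : ℂ) : av z 0 = 1 := by simp [av]

theorem av_succ {z : ℂ} (hz : z ≠ 0) (n : ℤ) : om n * av z (n + 1) = z * av z n := by
  unfold om av
  rcases lt_trichotomy n (-1) with h | h | h
  · rw [if_neg (by omega), if_neg (by omega), if_neg (by omega),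
      zpow_add_one₀ (by simpa using hz)]
    ring
  · subst h
    simp
    field_simp
  · rw [if_pos (by omega), if_pos (by omega), if_pos (by omega), zpow_add_one₀ hz]
    ring

theorem av_neg (z : ℂ) (n : ℤ) : av (-z) n = (-1 : ℂ) ^ n * av z n := by
  unfold av
  split_ifs
  · rw [← mul_zpow]
    simp
  · rw [← mul_zpow]
    congr 1
    ring

/-- the annulus -/
def ann : Set ℂ := {z | 3 / 5 < ‖z‖ ∧ ‖z‖ < 4 / 5}

theorem ann_ne {z : ℂ} (hz : z ∈ ann) : z ≠ 0 := by
  intro h
  subst h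
  have := hz.1
  rw [norm_zero] at this
  norm_num at this

theorem norm_av_le {z : ℂ} (hz : z ∈ ann) (n : ℤ) : ‖av z n‖ ≤ (5 / 6 : ℝ) ^ n.natAbs := by
  obtain ⟨h1, h2⟩ := hz
  unfold av
  split_ifs with h
  · obtain ⟨k, rfl⟩ := Int.eq_ofNat_of_zero_le h
    rw [zpow_natCast, norm_pow, Int.natAbs_natCast]
    exact pow_le_pow_left₀ (norm_nonneg _) (by linarith) _
  · obtain ⟨k, hk⟩ := Int.eq_ofNat_of_zero_le (a := -n) (by omega)
    have hn : n = -(k : ℤ) := by omega
    subst hn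
    rw [zpow_neg, zpow_natCast, norm_inv, norm_pow, Int.natAbs_neg, Int.natAbs_natCast,
      ← inv_pow]
    apply pow_le_pow_left₀ (by positivity)
    rw [norm_mul]
    have : ‖(2 : ℂ)‖ = 2 := by simp
    rw [this]
    have h3 : (2 * ‖z‖)⁻¹ ≤ (6 / 5 : ℝ)⁻¹ := inv_anti₀ (by norm_num) (by linarith)
    refine h3.trans (by norm_num)

theorem summable_bd : Summable (fun n : ℤ => (5 / 6 : ℝ) ^ n.natAbs) := by
  rw [summable_int_iff_summable_nat_and_neg]
  constructor
  · simpa using summable_geometric_of_lt_one (r := (5 / 6 : ℝ)) (by norm_num) (by norm_num)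
  · simpa using summable_geometric_of_lt_one (r := (5 / 6 : ℝ)) (by norm_num) (by norm_num)

theorem norm_eval_le (n : ℤ) : ‖(lp.evalCLM ℂ (fun _ : ℤ => ℂ) 2 n : KK →L[ℂ] ℂ)‖ ≤ 1 := by
  apply ContinuousLinearMap.opNorm_le_bound _ zero_le_one
  intro x
  rw [one_mul]
  exact lp.norm_apply_le_norm (by norm_num) x n

theorem summable_fl {z : ℂ} (hz : z ∈ ann) :
    Summable (fun n : ℤ => av z n • (lp.evalCLM ℂ (fun _ : ℤ => ℂ) 2 n : KK →L[ℂ] ℂ)) := by
  apply Summable.of_norm_bounded summable_bd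
  intro n
  rw [norm_smul]
  exact (mul_le_of_le_one_right (norm_nonneg _) (norm_eval_le n)).trans (norm_av_le hz n)

/-- the evaluation functional -/
noncomputable def fl (z : ℂ) : KK →L[ℂ] ℂ :=
  ∑' n : ℤ, av z n • (lp.evalCLM ℂ (fun _ : ℤ => ℂ) 2 n : KK →L[ℂ] ℂ)

theorem fl_apply {z : ℂ} (hz : z ∈ ann) (x : KK) : fl z x = ∑' n : ℤ, av z n * x n := by
  unfold fl
  exact (ContinuousLinearMap.apply ℂ ℂ x).map_tsum (summable_fl hz)

theorem fl_ee {z : ℂ} (hz : z ∈ ann) (n : ℤ) : fl z (ee n) = av z n := by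
  rw [fl_apply hz, tsum_eq_single n]
  · rw [ee_apply, if_pos rfl, mul_one]
  · intro m hm
    rw [ee_apply, if_neg hm, mul_zero]

theorem fl_uniq {z : ℂ} (hz : z ∈ ann) (φ : KK →L[ℂ] ℂ) (h : ∀ x, φ (WW x) = z * φ x) :
    φ = φ (ee 0) • fl z := by
  have hz0 := ann_ne hz
  have h1 : ∀ n : ℤ, om n * φ (ee (n + 1)) = z * φ (ee n) := by
    intro n
    rw [← h, WW_ee, map_smul, smul_eq_mul]
  apply functional_ext
  intro n
  change φ (ee n) = φ (ee 0) • fl z (ee n)
  rw [fl_ee hz, smul_eq_mul]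
  induction n using Int.induction_on with
  | zero => rw [av_zero, mul_one]
  | succ k ih =>
    have e1 := h1 k
    have e2 := av_succ hz0 k
    rw [ih] at e1
    apply mul_left_cancel₀ (om_ne k)
    rw [e1]
    linear_combination (-φ (ee 0)) * e2
  | pred k ih =>
    have e1 := h1 (-(k : ℤ) - 1)
    have e2 := av_succ hz0 (-(k : ℤ) - 1)
    rw [sub_add_cancel] at e1 e2
    rw [ih] at e1
    apply mul_left_cancel₀ hz0
    rw [← e1]
    linear_combination (φ (ee 0)) * e2

theorem fl_WW {z : ℂ} (hz : z ∈ ann) (x : KK) : fl z (WW x) = z * fl z x := by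
  have : (fl z).comp WW = z • fl z := by
    apply functional_ext
    intro n
    change fl z (WW (ee n)) = z • fl z (ee n)
    rw [WW_ee, map_smul, fl_ee hz, fl_ee hz, smul_eq_mul, smul_eq_mul, av_succ (ann_ne hz)]
  exact DFunLike.congr_fun this x

theorem ann_neg {z : ℂ} (hz : z ∈ ann) : -z ∈ ann := by
  unfold ann at *
  simpa using hz

theorem fl_JJ {z : ℂ} (hz : z ∈ ann) (x : KK) : fl z (JJ x) = fl (-z) x := by
  rw [fl_apply hz, fl_apply (ann_neg hz)]
  apply tsum_congr
  intro n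
  rw [JJ_apply, av_neg]
  ring

theorem fl_comm {z : ℂ} (hz : z ∈ ann) (g : KK →L[ℂ] KK) (hg : g * WW = WW * g) (x : KK) :
    fl z (g x) = fl z (g (ee 0)) * fl z x := by
  have h := fl_uniq hz ((fl z).comp g) (by
    intro x
    change fl z (g (WW x)) = z * fl z (g x)
    have e : g (WW x) = WW (g x) := DFunLike.congr_fun hg x
    rw [e, fl_WW hz])
  exact DFunLike.congr_fun h x

theorem fl_pow {z : ℂ} (hz : z ∈ ann) (g : KK →L[ℂ] KK) (hg : g * WW = WW * g) (n : ℕ) :
    fl z ((g ^ n) (ee 0)) = (fl z (g (ee 0))) ^ n := by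
  induction n with
  | zero =>
    change fl z (ee 0) = _
    rw [fl_ee hz, av_zero, pow_zero]
  | succ n ih =>
    rw [pow_succ']
    change fl z (g ((g ^ n) (ee 0))) = _
    rw [fl_comm hz g hg, ih, pow_succ']

theorem norm_le_one_of_pow {w : ℂ} {C : ℝ} (h : ∀ n : ℕ, ‖w ^ n‖ ≤ C) : ‖w‖ ≤ 1 := by
  by_contra hc
  push Not at hc
  obtain ⟨n, hn⟩ := pow_unbounded_of_one_lt C hc
  have := h n
  rw [norm_pow] at this
  linarith

theorem norm_h_le {z : ℂ} (hz : z ∈ ann) (g : KK →L[ℂ] KK) (hg : g * WW = WW * g) {C : ℝ}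
    (hC : ∀ n : ℕ, ‖g ^ n‖ ≤ C) : ‖fl z (g (ee 0))‖ ≤ 1 := by
  apply norm_le_one_of_pow (C := ‖fl z‖ * C)
  intro n
  rw [← fl_pow hz g hg]
  refine ((fl z).le_opNorm _).trans ?_
  apply mul_le_mul_of_nonneg_left _ (norm_nonneg _)
  refine ((g ^ n).le_opNorm _).trans ?_
  rw [norm_ee, mul_one]
  exact hC n

theorem norm_h_eq {z : ℂ} (hz : z ∈ ann) (g g' : KK →L[ℂ] KK) (h1 : g * g' = 1) (h2 : g' * g = 1)
    (hg : g * WW = WW * g) {C : ℝ} (hC : ∀ n : ℕ, ‖g ^ n‖ ≤ C) (hC' : ∀ n : ℕ, ‖g' ^ n‖ ≤ C) :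
    ‖fl z (g (ee 0))‖ = 1 := by
  have hg' : g' * WW = WW * g' := by
    calc g' * WW = g' * (WW * (g * g')) := by rw [h1, mul_one]
      _ = g' * (WW * g) * g' := by noncomm_ring
      _ = g' * (g * WW) * g' := by rw [hg]
      _ = (g' * g) * WW * g' := by noncomm_ring
      _ = WW * g' := by rw [h2, one_mul]
  have e1 := norm_h_le hz g hg hC
  have e2 := norm_h_le hz g' hg' hC'
  have e3 : fl z (g (ee 0)) * fl z (g' (ee 0)) = 1 := by
    rw [← fl_comm hz g hg]
    have : g (g' (ee 0)) = ee 0 := DFunLike.congr_fun h1 (ee 0)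
    rw [this, fl_ee hz, av_zero]
  have e4 : ‖fl z (g (ee 0))‖ * ‖fl z (g' (ee 0))‖ = 1 := by
    rw [← norm_mul, e3, norm_one]
  nlinarith [norm_nonneg (fl z (g (ee 0))), norm_nonneg (fl z (g' (ee 0)))]

/-- the strip -/
def strip : Set ℂ := {z | Real.log (3 / 5) < z.re ∧ z.re < Real.log (4 / 5)}

theorem exp_mem {z : ℂ} (hz : z ∈ strip) : exp z ∈ ann := by
  obtain ⟨h1, h2⟩ := hz
  constructor
  · rw [Complex.norm_exp]
    exact (Real.log_lt_iff_lt_exp (by norm_num)).1 h1
  · rw [Complex.norm_exp]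
    exact (Real.lt_log_iff_exp_lt (by norm_num)).1 h2

theorem isOpen_strip : IsOpen strip :=
  (isOpen_lt continuous_const Complex.continuous_re).inter
    (isOpen_lt Complex.continuous_re continuous_const)

theorem convex_strip : Convex ℝ strip :=
  (convex_halfSpace_re_gt _).inter (convex_halfSpace_re_lt _)

theorem differentiableOn_h (x : KK) : DifferentiableOn ℂ (fun z => fl (exp z) x) strip := by
  have h1 : DifferentiableOn ℂ (fun z => ∑' n : ℤ, av (exp z) n * x n) strip := by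
    apply differentiableOn_tsum_of_summable_norm (u := fun n : ℤ => (5 / 6 : ℝ) ^ n.natAbs * ‖x‖)
      (summable_bd.mul_right _) _ isOpen_strip
    · intro n z hz
      rw [norm_mul]
      exact mul_le_mul (norm_av_le (exp_mem hz) n) (lp.norm_apply_le_norm (by norm_num) x n)
        (norm_nonneg _) (by positivity)
    · intro n
      apply DifferentiableOn.mul_const
      intro z hz
      apply DifferentiableAt.differentiableWithinAt
      unfold av
      split_ifs
      · exact Complex.differentiable_exp.differentiableAt.zpow (Or.inl (Complex.exp_ne_zero z))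
      · exact (Complex.differentiable_exp.differentiableAt.const_mul 2).zpow
          (Or.inl (mul_ne_zero two_ne_zero (Complex.exp_ne_zero z)))
  exact h1.congr (fun z hz => fl_apply (exp_mem hz) x)

/-- There is no invertible operator, power bounded together with its inverse, which commutes
with the shift `WW` and anticommutes with the parity operator `JJ`. -/
theorem no_power_bounded (g g' : KK →L[ℂ] KK) (h1 : g * g' = 1) (h2 : g' * g = 1)
    (hW : g * WW = WW * g) (hJ : g * JJ = -(JJ * g)) (C : ℝ) (hC : ∀ n : ℕ, ‖g ^ n‖ ≤ C)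
    (hC' : ∀ n : ℕ, ‖g' ^ n‖ ≤ C) : False := by
  let c : ℂ := ((Real.log (7 / 10) : ℝ) : ℂ)
  have hc : c ∈ strip := by
    constructor
    · change Real.log (3 / 5) < Real.log (7 / 10)
      exact Real.log_lt_log (by norm_num) (by norm_num)
    · change Real.log (7 / 10) < Real.log (4 / 5)
      exact Real.log_lt_log (by norm_num) (by norm_num)
  have hc' : c + Real.pi * I ∈ strip := by
    unfold strip at *
    simpa using hc
  have hconst : Set.EqOn (fun z => fl (exp z) (g (ee 0)))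
      (Function.const ℂ (fl (exp c) (g (ee 0)))) strip := by
    apply Complex.eqOn_of_isPreconnected_of_isMaxOn_norm convex_strip.isPreconnected isOpen_strip
      (differentiableOn_h _) hc
    intro z hz
    change ‖fl (exp z) (g (ee 0))‖ ≤ ‖fl (exp c) (g (ee 0))‖
    rw [norm_h_eq (exp_mem hz) g g' h1 h2 hW hC hC', norm_h_eq (exp_mem hc) g g' h1 h2 hW hC hC']
  have e1 := hconst hc'
  change fl (exp (c + Real.pi * I)) (g (ee 0)) = fl (exp c) (g (ee 0)) at e1
  rw [Complex.exp_add, Complex.exp_pi_mul_I, mul_neg_one, ← fl_JJ (exp_mem hc)] at e1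
  have e2 : JJ (g (ee 0)) = -(g (ee 0)) := by
    have := DFunLike.congr_fun hJ (ee 0)
    change g (JJ (ee 0)) = -(JJ (g (ee 0))) at this
    rw [JJ_ee_zero] at this
    exact (neg_eq_iff_eq_neg.2 this).symm
  rw [e2, map_neg] at e1
  have e3 : fl (exp c) (g (ee 0)) = 0 := by
    have : (2 : ℂ) * fl (exp c) (g (ee 0)) = 0 := by linear_combination (-1 : ℂ) * e1
    simpa using this
  have e4 := norm_h_eq (exp_mem hc) g g' h1 h2 hW hC hC'
  rw [e3, norm_zero] at e4
  exact zero_ne_one e4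

end Pool.Agent.MP_908b95_an
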