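import Pool.Agent.MP_908b95_an.Global

/-! The weakly homogeneous operator is not similar to a homogeneous one. -/

namespace Pool.Agent.MP_908b95_an

open Complex

theorem norm_le_one_of_star_mul {E : Type*} [NormedAddCommGroup E] [InnerProductSpace ℂ E]
    [CompleteSpace E] {U : E →L[ℂ] E} (h : star U * U = 1) : ‖U‖ ≤ 1 := by
  apply ContinuousLinearMap.opNorm_le_bound _ zero_le_one
  intro x
  rw [one_mul]
  have h2 : inner ℂ (U x) (U x) = inner ℂ x x := by
    rw [← ContinuousLinearMap.adjoint_inner_right]
    have : (ContinuousLinearMap.adjoint U) (U x) = x := DFunLike.congr_fun h x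
    rw [this]
  rw [inner_self_eq_norm_sq_to_K, inner_self_eq_norm_sq_to_K] at h2
  have h3 : ‖U x‖ ^ 2 = ‖x‖ ^ 2 := by exact_mod_cast h2
  exact le_of_sq_le_sq h3.le (norm_nonneg _)

theorem norm_pow_le_one {E : Type*} [NormedAddCommGroup E] [InnerProductSpace ℂ E]
    {V : E →L[ℂ] E} (h : ‖V‖ ≤ 1) (n : ℕ) : ‖V ^ n‖ ≤ 1 := by
  induction n with
  | zero =>
    rw [pow_zero]
    exact ContinuousLinearMap.norm_id_le
  | succ n ih =>
    rw [pow_succ]
    exact (norm_mul_le _ _).trans (mul_le_one₀ ih (norm_nonneg _) h)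

theorem conj_pow_norm_le {E : Type*} [NormedAddCommGroup E] [InnerProductSpace ℂ E]
    {s t V : E →L[ℂ] E} (hst : s * t = 1) (hts : t * s = 1) (h : ‖V‖ ≤ 1) (n : ℕ) :
    ‖(t * V * s) ^ n‖ ≤ ‖t‖ * ‖s‖ := by
  have e : (t * V * s) ^ n = t * V ^ n * s := by
    induction n with
    | zero => rw [pow_zero, pow_zero, mul_one, hts]
    | succ n ih =>
      rw [pow_succ, ih, pow_succ]
      calc t * V ^ n * s * (t * V * s) = t * V ^ n * (s * t) * V * s := by noncomm_ring
        _ = t * (V ^ n * V) * s := by
          rw [hst]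
          noncomm_ring
  rw [e]
  refine (norm_mul_le _ _).trans ?_
  apply mul_le_mul_of_nonneg_right _ (norm_nonneg _)
  refine (norm_mul_le _ _).trans ?_
  exact mul_le_of_le_one_right (norm_nonneg _) (norm_pow_le_one h n)

theorem not_similar (s t U : HH →L[ℂ] HH) (hst : s * t = 1) (hts : t * s = 1)
    (hU1 : star U * U = 1) (hU2 : U * star U = 1)
    (h : -(s * TQ * t) = U * (s * TQ * t) * star U) : False := by
  have hnU := norm_le_one_of_star_mul hU1
  have hnU' : ‖star U‖ ≤ 1 := norm_le_one_of_star_mul (by rw [star_star]; exact hU2)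
  apply no_bounded (t * U * s) (t * star U * s) _ _ _ (‖t‖ * ‖s‖)
    (conj_pow_norm_le hst hts hnU) (conj_pow_norm_le hst hts hnU')
  · calc t * U * s * (t * star U * s) = t * U * (s * t) * star U * s := by noncomm_ring
      _ = t * (U * star U) * s := by
        rw [hst]
        noncomm_ring
      _ = 1 := by rw [hU2, mul_one, hts]
  · calc t * star U * s * (t * U * s) = t * star U * (s * t) * U * s := by noncomm_ring
      _ = t * (star U * U) * s := by
        rw [hst]
        noncomm_ring
      _ = 1 := by rw [hU1, mul_one, hts]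
  · have h1 : U * (s * TQ * t) = -((s * TQ * t) * U) := by
      calc U * (s * TQ * t) = U * (s * TQ * t) * (star U * U) := by rw [hU1, mul_one]
        _ = (U * (s * TQ * t) * star U) * U := by noncomm_ring
        _ = -(s * TQ * t) * U := by rw [h]
        _ = -((s * TQ * t) * U) := by noncomm_ring
    calc t * U * s * TQ = t * U * s * TQ * (t * s) := by rw [hts, mul_one]
      _ = t * (U * (s * TQ * t)) * s := by noncomm_ring
      _ = -(t * s * TQ * (t * U * s)) := by
        rw [h1]
        noncomm_ring
      _ = -(TQ * (t * U * s)) := by rw [hts, one_mul]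

end Pool.Agent.MP_908b95_an
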