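import Mathlib

/-! Moebius maps of contractions. -/

namespace Pool.Agent.MP_908b95_an

open Complex ComplexConjugate

variable {E : Type*} [NormedAddCommGroup E] [InnerProductSpace ℂ E] [CompleteSpace E]

/-- the Moebius map `u (z - a) / (1 - conj a z)` applied to an operator -/
noncomputable def mob (u a : ℂ) (B : E →L[ℂ] E) : E →L[ℂ] E :=
  u • ((B - a • (1 : E →L[ℂ] E)) * Ring.inverse ((1 : E →L[ℂ] E) - (starRingEnd ℂ a) • B))

theorem isUnit_den {a : ℂ} (ha : ‖a‖ < 1) {B : E →L[ℂ] E} (hB : ‖B‖ ≤ 1) :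
    IsUnit ((1 : E →L[ℂ] E) - (starRingEnd ℂ a) • B) := by
  apply isUnit_one_sub_of_norm_lt_one
  rw [norm_smul, RCLike.norm_conj]
  nlinarith [norm_nonneg a, norm_nonneg B]

theorem mob_mul (u : ℂ) {a : ℂ} (ha : ‖a‖ < 1) {B : E →L[ℂ] E} (hB : ‖B‖ ≤ 1) :
    mob u a B * ((1 : E →L[ℂ] E) - (starRingEnd ℂ a) • B) = u • (B - a • (1 : E →L[ℂ] E)) := by
  unfold mob
  rw [smul_mul_assoc, Ring.inverse_mul_cancel_right _ _ (isUnit_den ha hB)]

theorem mob_unique {u a : ℂ} (ha : ‖a‖ < 1) {B C : E →L[ℂ] E} (hB : ‖B‖ ≤ 1)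
    (h : C * ((1 : E →L[ℂ] E) - (starRingEnd ℂ a) • B) = u • (B - a • (1 : E →L[ℂ] E))) :
    C = mob u a B := by
  rw [← mob_mul u ha hB] at h
  exact (isUnit_den ha hB).mul_left_injective h

omit [CompleteSpace E] in
theorem norm_sub_smul_sq (B : E →L[ℂ] E) (a : ℂ) (y : E) :
    ‖y - (starRingEnd ℂ a) • B y‖ ^ 2 - ‖B y - a • y‖ ^ 2 =
      (1 - ‖a‖ ^ 2) * (‖y‖ ^ 2 - ‖B y‖ ^ 2) := by
  rw [@norm_sub_sq ℂ, @norm_sub_sq ℂ, inner_smul_right, inner_smul_right, norm_smul, norm_smul,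
    RCLike.norm_conj]
  have h : RCLike.re ((starRingEnd ℂ a) * inner ℂ y (B y)) =
      RCLike.re (a * inner ℂ (B y) y) := by
    rw [← inner_conj_symm y (B y), ← map_mul, RCLike.conj_re]
  rw [h]
  ring

theorem norm_mob_le {u a : ℂ} (hu : ‖u‖ = 1) (ha : ‖a‖ < 1) {B : E →L[ℂ] E} (hB : ‖B‖ ≤ 1) :
    ‖mob u a B‖ ≤ 1 := by
  apply ContinuousLinearMap.opNorm_le_bound _ zero_le_one
  intro x
  rw [one_mul]
  set N := (1 : E →L[ℂ] E) - (starRingEnd ℂ a) • B with hN
  have hNu : IsUnit N := isUnit_den ha hB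
  set y := Ring.inverse N x with hy
  have hx : x = N y := by
    have := DFunLike.congr_fun (Ring.mul_inverse_cancel N hNu) x
    exact this.symm
  have h1 : mob u a B x = u • (B y - a • y) := rfl
  have h2 : N y = y - (starRingEnd ℂ a) • B y := rfl
  rw [h1, norm_smul, hu, one_mul, hx, h2]
  have h3 := norm_sub_smul_sq B a y
  have h4 : ‖B y‖ ≤ ‖y‖ := by
    refine (B.le_opNorm y).trans ?_
    exact mul_le_of_le_one_left (norm_nonneg _) hB
  have h5 : 0 ≤ (1 - ‖a‖ ^ 2) * (‖y‖ ^ 2 - ‖B y‖ ^ 2) := by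
    apply mul_nonneg
    · nlinarith [norm_nonneg a]
    · nlinarith [norm_nonneg (B y)]
  exact le_of_sq_le_sq (by linarith) (norm_nonneg _)

theorem mob_ker {u a : ℂ} (hu : u ≠ 0) (ha : ‖a‖ < 1) {B : E →L[ℂ] E} (hB : ‖B‖ ≤ 1) {v : E}
    (h : mob u a B v = 0) : B v = a • v := by
  set N := (1 : E →L[ℂ] E) - (starRingEnd ℂ a) • B with hN
  have hNu : IsUnit N := isUnit_den ha hB
  set y := Ring.inverse N v with hy
  have hx : v = N y := (DFunLike.congr_fun (Ring.mul_inverse_cancel N hNu) v).symm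
  have h1 : B y - a • y = 0 := (smul_eq_zero.1 h).resolve_left hu
  have h2 : N y = y - (starRingEnd ℂ a) • B y := rfl
  have h3 : B y = a • y := sub_eq_zero.1 h1
  rw [hx, h2, map_sub, map_smul, h3, map_smul, h3, smul_sub]
  congr 1
  exact smul_comm _ _ _

theorem mob_inv {u a : ℂ} (hu : ‖u‖ = 1) (ha : ‖a‖ < 1) {B : E →L[ℂ] E} (hB : ‖B‖ ≤ 1) :
    mob (starRingEnd ℂ u) (-(u * a)) (mob u a B) = B := by
  have huu : (starRingEnd ℂ u) * u = 1 := by
    rw [mul_comm, Complex.mul_conj, Complex.normSq_eq_norm_sq, hu]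
    norm_num
  symm
  apply mob_unique
  · rw [norm_neg, norm_mul, hu, one_mul]
    exact ha
  · exact norm_mob_le hu ha hB
  · set C := mob u a B with hC
    have hCN := mob_mul u ha hB
    rw [← hC] at hCN
    apply (isUnit_den ha hB).mul_left_injective
    change B * (1 - (starRingEnd ℂ (-(u * a))) • C) * (1 - (starRingEnd ℂ a) • B) =
      (starRingEnd ℂ u) • (C - (-(u * a)) • 1) * (1 - (starRingEnd ℂ a) • B)
    have e1 : B * (1 - (starRingEnd ℂ (-(u * a))) • C) * (1 - (starRingEnd ℂ a) • B) =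
        B * (1 - (starRingEnd ℂ a) • B) +
          ((starRingEnd ℂ u) * (starRingEnd ℂ a)) • (B * (C * (1 - (starRingEnd ℂ a) • B))) := by
      rw [map_neg, map_mul, neg_smul, sub_neg_eq_add, mul_add, mul_one, add_mul, mul_smul_comm,
        smul_mul_assoc, mul_assoc]
    have e2 : (starRingEnd ℂ u) • (C - (-(u * a)) • 1) * (1 - (starRingEnd ℂ a) • B) =
        (starRingEnd ℂ u) • (C * (1 - (starRingEnd ℂ a) • B)) +
          ((starRingEnd ℂ u) * (u * a)) • (1 - (starRingEnd ℂ a) • B) := by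
      rw [neg_smul, sub_neg_eq_add, smul_add, add_mul, smul_mul_assoc, smul_smul, smul_mul_assoc,
        one_mul]
    rw [e1, e2, hCN, mul_smul_comm, smul_smul, smul_smul, ← mul_assoc, huu, one_mul, one_smul]
    have e3 : (starRingEnd ℂ u) * (starRingEnd ℂ a) * u = starRingEnd ℂ a := by
      linear_combination (starRingEnd ℂ a) * huu
    rw [e3]
    simp only [mul_sub, mul_one, mul_smul_comm, smul_sub, smul_smul]
    rw [mul_comm a]
    abel

theorem q_ne {a b u : ℂ} (hu : ‖u‖ = 1) (ha : ‖a‖ < 1) (hb : ‖b‖ < 1) :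
    1 + (starRingEnd ℂ b) * u * a ≠ 0 := by
  intro h
  have h1 : ‖(starRingEnd ℂ b) * u * a‖ = 1 := by
    have : (starRingEnd ℂ b) * u * a = -1 := by linear_combination h
    rw [this, norm_neg, norm_one]
  rw [norm_mul, norm_mul, RCLike.norm_conj, hu, mul_one] at h1
  nlinarith [norm_nonneg a, norm_nonneg b]

theorem conj_mul_self_of_norm {u : ℂ} (hu : ‖u‖ = 1) : (starRingEnd ℂ u) * u = 1 := by
  rw [mul_comm, Complex.mul_conj, Complex.normSq_eq_norm_sq, hu]
  norm_num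

theorem mob_mob {v b u a : ℂ} (hv : ‖v‖ = 1) (hb : ‖b‖ < 1) (hu : ‖u‖ = 1) (ha : ‖a‖ < 1)
    {B : E →L[ℂ] E} (hB : ‖B‖ ≤ 1) :
    ∃ w d : ℂ, ‖w‖ = 1 ∧ ‖d‖ < 1 ∧ mob v b (mob u a B) = mob w d B := by
  set q := 1 + (starRingEnd ℂ b) * u * a with hq
  have hq0 : q ≠ 0 := q_ne hu ha hb
  have huu := conj_mul_self_of_norm hu
  set r := u + b * (starRingEnd ℂ a) with hr
  have hr' : r = u * (starRingEnd ℂ q) := by
    rw [hr, hq, map_add, map_one, map_mul, map_mul, Complex.conj_conj]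
    linear_combination (-b * (starRingEnd ℂ a)) * huu
  have hrq : ‖r‖ = ‖q‖ := by
    rw [hr', norm_mul, hu, one_mul, RCLike.norm_conj]
  have hr0 : r ≠ 0 := by
    rw [← norm_ne_zero_iff, hrq]
    exact norm_ne_zero_iff.2 hq0
  have hd : (starRingEnd ℂ ((u * a + b) / r)) = ((starRingEnd ℂ a) + (starRingEnd ℂ b) * u) / q := by
    rw [hr', map_div₀, map_mul, Complex.conj_conj, map_add, map_mul]
    have hcu : (starRingEnd ℂ u) ≠ 0 := by
      intro h
      rw [h, zero_mul] at huu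
      exact zero_ne_one huu
    rw [div_eq_div_iff (mul_ne_zero hcu hq0) hq0]
    linear_combination (-(starRingEnd ℂ b) * q) * huu
  have hnum : ‖u * a + b‖ ^ 2 < ‖r‖ ^ 2 := by
    have h1 : ‖r‖ ^ 2 - ‖u * a + b‖ ^ 2 = (1 - ‖a‖ ^ 2) * (1 - ‖b‖ ^ 2) := by
      have hc : ∀ z : ℂ, ((‖z‖ ^ 2 : ℝ) : ℂ) = z * (starRingEnd ℂ z) := by
        intro z
        rw [Complex.mul_conj, Complex.normSq_eq_norm_sq]
      have : ((‖r‖ ^ 2 - ‖u * a + b‖ ^ 2 : ℝ) : ℂ) = (((1 - ‖a‖ ^ 2) * (1 - ‖b‖ ^ 2) : ℝ) : ℂ) := by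
        rw [Complex.ofReal_sub, Complex.ofReal_mul, Complex.ofReal_sub, Complex.ofReal_sub,
          hc, hc, hc, hc, hr, Complex.ofReal_one]
        simp only [map_add, map_mul, Complex.conj_conj]
        linear_combination (1 - a * (starRingEnd ℂ a)) * huu
      exact_mod_cast this
    have h2 : 0 < (1 - ‖a‖ ^ 2) * (1 - ‖b‖ ^ 2) := by
      apply mul_pos
      · nlinarith [norm_nonneg a]
      · nlinarith [norm_nonneg b]
    linarith
  refine ⟨v * r / q, (u * a + b) / r, ?_, ?_, ?_⟩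
  · rw [norm_div, norm_mul, hv, one_mul, hrq, div_self (norm_ne_zero_iff.2 hq0)]
  · rw [norm_div, div_lt_one (norm_pos_iff.2 hr0)]
    exact lt_of_pow_lt_pow_left₀ 2 (norm_nonneg _) hnum
  · have hd1 : ‖(u * a + b) / r‖ < 1 := by
      rw [norm_div, div_lt_one (norm_pos_iff.2 hr0)]
      exact lt_of_pow_lt_pow_left₀ 2 (norm_nonneg _) hnum
    apply mob_unique hd1 hB
    set C := mob u a B with hC
    have hCN := mob_mul u ha hB
    rw [← hC] at hCN
    have hC1 : ‖C‖ ≤ 1 := norm_mob_le hu ha hB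
    have hD := mob_mul v hb hC1
    set D := mob v b C with hDdef
    have h1 : D * (1 - (starRingEnd ℂ b) • C) * (1 - (starRingEnd ℂ a) • B) =
        (v • (C - b • 1)) * (1 - (starRingEnd ℂ a) • B) := by rw [hD]
    have h2 : D * (1 - (starRingEnd ℂ b) • C) * (1 - (starRingEnd ℂ a) • B) =
        D * (q • 1 - ((starRingEnd ℂ a) + (starRingEnd ℂ b) * u) • B) := by
      rw [mul_assoc, sub_mul, one_mul, smul_mul_assoc, hCN]
      congr 1
      rw [hq]
      module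
    have h3 : (v • (C - b • 1)) * (1 - (starRingEnd ℂ a) • B) =
        v • (r • B - (u * a + b) • 1) := by
      rw [smul_mul_assoc, sub_mul, hCN, smul_mul_assoc, one_mul, hr]
      module
    rw [h2, h3] at h1
    have h4 : D * (1 - (starRingEnd ℂ ((u * a + b) / r)) • B) =
        q⁻¹ • (D * (q • 1 - ((starRingEnd ℂ a) + (starRingEnd ℂ b) * u) • B)) := by
      rw [hd, ← mul_smul_comm, smul_sub, smul_smul, smul_smul, inv_mul_cancel₀ hq0, one_smul]
      congr 3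
      rw [div_eq_inv_mul]
    rw [h4, h1, smul_smul, smul_sub, smul_sub, smul_smul, smul_smul, smul_smul]
    congr 2
    · rw [div_eq_inv_mul, mul_assoc]
    · field_simp

end Pool.Agent.MP_908b95_an
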