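import Pool.Agent.MP_908b95_an.Local2
import Pool.Agent.MP_908b95_an.Mob

/-! The weakly homogeneous operator. -/

namespace Pool.Agent.MP_908b95_an

open Complex

/-- the orbit of the normalised operator -/
def Orb (A : H0 →L[ℂ] H0) : Prop := ∃ u a : ℂ, ‖u‖ = 1 ∧ ‖a‖ < 1 ∧ A = mob u a TT

/-- conjugation by the symmetry -/
noncomputable def cj (A : H0 →L[ℂ] H0) : H0 →L[ℂ] H0 := GG * A * GI

theorem TT_GI : GI * TT = -(TT * GI) := by
  have h : GI * (GG * TT) * GI = GI * (-(TT * GG)) * GI := by rw [GG_TT]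
  have h1 : GI * (GG * TT) * GI = TT * GI := by rw [← mul_assoc, GI_GG, one_mul]
  have h2 : GI * (-(TT * GG)) * GI = -(GI * TT) := by
    rw [mul_neg, neg_mul, mul_assoc, mul_assoc, GG_GI, mul_one]
  rw [h1, h2] at h
  rw [h, neg_neg]

theorem cj_mob {u a : ℂ} (ha : ‖a‖ < 1) : cj (mob u a TT) = mob (-u) (-a) TT := by
  apply mob_unique (by rwa [norm_neg]) norm_TT_le
  unfold cj
  have h1 : GI * ((1 : H0 →L[ℂ] H0) - (starRingEnd ℂ (-a)) • TT) =
      ((1 : H0 →L[ℂ] H0) - (starRingEnd ℂ a) • TT) * GI := by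
    rw [mul_sub, mul_one, mul_smul_comm, TT_GI, sub_mul, one_mul, smul_mul_assoc, map_neg,
      neg_smul, smul_neg, neg_neg]
  rw [mul_assoc, h1, mul_assoc, ← mul_assoc (mob u a TT), mob_mul u ha norm_TT_le,
    smul_mul_assoc, mul_smul_comm, sub_mul, smul_mul_assoc, one_mul, mul_sub, mul_smul_comm,
    GG_GI, ← mul_assoc, GG_TT, neg_mul, mul_assoc, GG_GI, mul_one]
  module

theorem orb_norm {A : H0 →L[ℂ] H0} (h : Orb A) : ‖A‖ ≤ 1 := by
  obtain ⟨u, a, hu, ha, rfl⟩ := h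
  exact norm_mob_le hu ha norm_TT_le

theorem cj_orb {A : H0 →L[ℂ] H0} (h : Orb A) : Orb (cj A) := by
  obtain ⟨u, a, hu, ha, rfl⟩ := h
  exact ⟨-u, -a, by rwa [norm_neg], by rwa [norm_neg], cj_mob ha⟩

theorem cj_cj {A : H0 →L[ℂ] H0} (h : Orb A) : cj (cj A) = A := by
  obtain ⟨u, a, hu, ha, rfl⟩ := h
  rw [cj_mob ha, cj_mob (by rwa [norm_neg]), neg_neg, neg_neg]

theorem mob_orb {v b : ℂ} (hv : ‖v‖ = 1) (hb : ‖b‖ < 1) {A : H0 →L[ℂ] H0} (h : Orb A) :
    Orb (mob v b A) := by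
  obtain ⟨u, a, hu, ha, rfl⟩ := h
  exact mob_mob hv hb hu ha norm_TT_le

theorem mob_cj {v b : ℂ} (hb : ‖b‖ < 1) {A : H0 →L[ℂ] H0} (h : Orb A) :
    mob v b (cj A) = cj (mob v b A) := by
  symm
  apply mob_unique hb (orb_norm (cj_orb h))
  have h1 := mob_mul v hb (orb_norm h)
  unfold cj
  have h2 : GI * ((1 : H0 →L[ℂ] H0) - (starRingEnd ℂ b) • (GG * A * GI)) =
      ((1 : H0 →L[ℂ] H0) - (starRingEnd ℂ b) • A) * GI := by
    rw [mul_sub, mul_one, mul_smul_comm, sub_mul, one_mul, smul_mul_assoc, ← mul_assoc,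
      ← mul_assoc, GI_GG, one_mul]
  rw [mul_assoc, h2, mul_assoc, ← mul_assoc (mob v b A), h1, smul_mul_assoc, mul_smul_comm,
    sub_mul, smul_mul_assoc, one_mul, mul_sub, mul_smul_comm, GG_GI, ← mul_assoc]

theorem TT_orb : Orb TT := by
  refine ⟨1, 0, norm_one, by simp, ?_⟩
  apply mob_unique (by simp) norm_TT_le
  simp

/-- the orbit as a type -/
abbrev OO : Type := {A : H0 →L[ℂ] H0 // Orb A}

/-- two elements are equivalent if they agree up to the symmetry -/
def stO : Setoid OO where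
  r A B := B.1 = A.1 ∨ B.1 = cj A.1
  iseqv := by
    refine ⟨fun A => Or.inl rfl, ?_, ?_⟩
    · rintro A B (h | h)
      · exact Or.inl h.symm
      · right
        rw [h, cj_cj A.2]
    · rintro A B C (h | h) (h' | h')
      · exact Or.inl (h'.trans h)
      · right
        rw [h', h]
      · right
        rw [h', h]
      · left
        rw [h', h, cj_cj A.2]

/-- Moebius action on the orbit -/
noncomputable def mO {v b : ℂ} (hv : ‖v‖ = 1) (hb : ‖b‖ < 1) (A : OO) : OO :=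
  ⟨mob v b A.1, mob_orb hv hb A.2⟩

theorem norm_conj_eq {v : ℂ} (hv : ‖v‖ = 1) : ‖(starRingEnd ℂ) v‖ = 1 := by
  rw [RCLike.norm_conj, hv]

theorem norm_neg_mul_lt {v b : ℂ} (hv : ‖v‖ = 1) (hb : ‖b‖ < 1) : ‖-(v * b)‖ < 1 := by
  rw [norm_neg, norm_mul, hv, one_mul]
  exact hb

/-- the action as a permutation of the orbit -/
noncomputable def eO {v b : ℂ} (hv : ‖v‖ = 1) (hb : ‖b‖ < 1) : OO ≃ OO where
  toFun := mO hv hb
  invFun := mO (norm_conj_eq hv) (norm_neg_mul_lt hv hb)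
  left_inv := fun A => Subtype.ext (mob_inv hv hb (orb_norm A.2))
  right_inv := fun A => by
    apply Subtype.ext
    change mob v b (mob (starRingEnd ℂ v) (-(v * b)) A.1) = A.1
    have h := mob_inv (norm_conj_eq hv) (norm_neg_mul_lt hv hb) (orb_norm A.2)
    rw [Complex.conj_conj] at h
    have e : -((starRingEnd ℂ) v * -(v * b)) = b := by
      linear_combination b * conj_mul_self_of_norm hv
    rw [e] at h
    exact h

/-- the index set of the direct sum -/
abbrev QQ : Type := Quotient stO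

theorem mob_inj {v b : ℂ} (hv : ‖v‖ = 1) (hb : ‖b‖ < 1) {A B : H0 →L[ℂ] H0} (hA : Orb A)
    (hB : Orb B) (h : mob v b A = mob v b B) : A = B := by
  rw [← mob_inv hv hb (orb_norm hA), h, mob_inv hv hb (orb_norm hB)]

/-- the action on the index set -/
noncomputable def eQ {v b : ℂ} (hv : ‖v‖ = 1) (hb : ‖b‖ < 1) : QQ ≃ QQ :=
  Quotient.congr (ra := stO) (rb := stO) (eO hv hb) (by
    intro A B
    change (B.1 = A.1 ∨ B.1 = cj A.1) ↔ (mob v b B.1 = mob v b A.1 ∨ mob v b B.1 = cj (mob v b A.1))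
    rw [← mob_cj hb A.2]
    constructor
    · rintro (h | h)
      · exact Or.inl (by rw [h])
      · exact Or.inr (by rw [h])
    · rintro (h | h)
      · exact Or.inl (mob_inj hv hb B.2 A.2 h)
      · exact Or.inr (mob_inj hv hb B.2 (cj_orb A.2) h))

/-- the component operators -/
noncomputable def opA (q : QQ) : H0 →L[ℂ] H0 := (Quotient.out q).1

theorem opA_orb (q : QQ) : Orb (opA q) := (Quotient.out q).2

theorem opA_norm (q : QQ) : ‖opA q‖ ≤ 1 := orb_norm (opA_orb q)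

theorem exists_S {v b : ℂ} (hv : ‖v‖ = 1) (hb : ‖b‖ < 1) (q : QQ) :
    ∃ S SI : H0 →L[ℂ] H0, S * SI = 1 ∧ SI * S = 1 ∧ ‖S‖ ≤ 2 ∧ ‖SI‖ ≤ 2 ∧
      mob v b (opA q) = S * opA (eQ hv hb q) * SI := by
  have h1 : eQ hv hb q = Quotient.mk stO (eO hv hb (Quotient.out q)) := by
    conv_lhs => rw [← Quotient.out_eq q]
    rfl
  have h2 : stO.r (Quotient.out (eQ hv hb q)) (eO hv hb (Quotient.out q)) := by
    apply Quotient.exact (s := stO)
    rw [Quotient.out_eq, h1]
  rcases h2 with h | h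
  · refine ⟨1, 1, one_mul _, one_mul _, ?_, ?_, ?_⟩
    · exact ContinuousLinearMap.norm_id_le.trans one_le_two
    · exact ContinuousLinearMap.norm_id_le.trans one_le_two
    · rw [one_mul, mul_one]
      exact h
  · exact ⟨GG, GI, GG_GI, GI_GG, norm_GG_le.trans one_le_two, norm_GI_le, h⟩

/-- the big Hilbert space -/
abbrev HH : Type := lp (fun _ : QQ => H0) 2

/-- the weakly homogeneous operator -/
noncomputable def TQ : HH →L[ℂ] HH := wc (Equiv.refl QQ) opA 1 opA_norm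

theorem TQ_apply (x : HH) (q : QQ) : TQ x q = opA q (x q) := rfl

theorem norm_TQ_le : ‖TQ‖ ≤ 1 := wc_norm_le _ _ _ zero_le_one _

theorem weakly_homogeneous {v b : ℂ} (hv : ‖v‖ = 1) (hb : ‖b‖ < 1) :
    ∃ Γ : (HH →L[ℂ] HH)ˣ, ‖(Γ : HH →L[ℂ] HH)‖ ≤ 2 ∧
      ‖((Γ⁻¹ : (HH →L[ℂ] HH)ˣ) : HH →L[ℂ] HH)‖ ≤ 2 ∧
      mob v b TQ = (Γ : HH →L[ℂ] HH) * TQ * ((Γ⁻¹ : (HH →L[ℂ] HH)ˣ) : HH →L[ℂ] HH) := by
  choose S SI h1 h2 h3 h4 h5 using exists_S hv hb
  let e := eQ hv hb
  let G : HH →L[ℂ] HH := wc e S 2 h3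
  let GI' : HH →L[ℂ] HH := wc e.symm (fun p => SI (e.symm p)) 2 (fun p => h4 (e.symm p))
  have hG : ∀ (x : HH) (q : QQ), G x q = S q (x (e q)) := fun x q => rfl
  have hGI : ∀ (x : HH) (q : QQ), GI' x (e q) = SI q (x q) := by
    intro x q
    change SI (e.symm (e q)) (x (e.symm (e q))) = _
    rw [e.symm_apply_apply]
  have e1 : G * GI' = 1 := by
    ext1 x
    ext1
    funext q
    change G (GI' x) q = x q
    rw [hG, hGI]
    exact DFunLike.congr_fun (h1 q) (x q)
  have e2 : GI' * G = 1 := by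
    ext1 x
    ext1
    funext p
    change GI' (G x) p = x p
    obtain ⟨q, rfl⟩ := e.surjective p
    rw [hGI, hG]
    exact DFunLike.congr_fun (h2 q) (x (e q))
  refine ⟨⟨G, GI', e1, e2⟩, wc_norm_le e S 2 zero_le_two h3,
    wc_norm_le e.symm (fun p => SI (e.symm p)) 2 zero_le_two (fun p => h4 (e.symm p)), ?_⟩
  symm
  apply mob_unique hb norm_TQ_le
  change G * TQ * GI' * (1 - (starRingEnd ℂ b) • TQ) = _
  ext1 x
  ext1
  funext q
  change G (TQ (GI' (x - (starRingEnd ℂ b) • TQ x))) q = (v • (TQ x - b • x) : HH) q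
  rw [hG, TQ_apply, hGI, lp.coeFn_smul, Pi.smul_apply, lp.coeFn_sub, lp.coeFn_sub, Pi.sub_apply,
    Pi.sub_apply, lp.coeFn_smul, lp.coeFn_smul, Pi.smul_apply, Pi.smul_apply, TQ_apply]
  have h6 := DFunLike.congr_fun (mob_mul v hb (opA_norm q)) (x q)
  rw [h5 q] at h6
  exact h6

/-- the base component -/
noncomputable def q0 : QQ := Quotient.mk stO ⟨TT, TT_orb⟩

theorem cj_TT : cj TT = -TT := by
  unfold cj
  rw [GG_TT, neg_mul, mul_assoc, GG_GI, mul_one]

theorem opA_q0 : opA q0 = TT ∨ opA q0 = -TT := by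
  have h2 : stO.r ⟨TT, TT_orb⟩ (Quotient.out q0) := by
    apply Quotient.exact (s := stO)
    rw [Quotient.out_eq]
    rfl
  rcases h2 with h | h
  · exact Or.inl h
  · right
    rw [← cj_TT]
    exact h

theorem eq_q0 {q : QQ} (h : opA q = TT ∨ opA q = -TT) : q = q0 := by
  have h1 : Quotient.mk stO (Quotient.out q) = Quotient.mk stO ⟨TT, TT_orb⟩ := by
    apply Quotient.sound
    change TT = opA q ∨ TT = cj (opA q)
    rcases h with h | h
    · exact Or.inl h.symm
    · right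
      rw [h, ← cj_TT, cj_cj TT_orb]
  rw [Quotient.out_eq] at h1
  exact h1

theorem mob_zero_eq (u : ℂ) : mob u 0 TT = u • TT := by
  symm
  apply mob_unique (by simp) norm_TT_le
  simp

/-- evaluation -/
noncomputable def evQ (q : QQ) : HH →L[ℂ] H0 := lp.evalCLM ℂ (fun _ : QQ => H0) 2 q

open Classical in
/-- injection -/
noncomputable def sgQ (q : QQ) : H0 →L[ℂ] HH :=
  lp.singleContinuousLinearMap ℂ (fun _ : QQ => H0) 2 q

open Classical in
theorem sgQ_apply (q p : QQ) (k : H0) : sgQ q k p = if p = q then k else 0 := by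
  change (lp.single (E := fun _ : QQ => H0) 2 q k : HH) p = _
  rw [lp.single_apply]
  by_cases h : p = q
  · subst h
    simp
  · simp [h]

theorem norm_sgQ (q : QQ) (k : H0) : ‖sgQ q k‖ = ‖k‖ := by
  classical
  exact lp.norm_single (E := fun _ : QQ => H0) (by norm_num) q k

theorem TQ_sgQ (q : QQ) (k : H0) : TQ (sgQ q k) = sgQ q (opA q k) := by
  ext1
  funext p
  rw [TQ_apply, sgQ_apply, sgQ_apply]
  by_cases h : p = q
  · subst h
    rw [if_pos rfl, if_pos rfl]
  · rw [if_neg h, if_neg h, map_zero]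

/-- embedding of the coefficient space -/
noncomputable def io (k : KK) : HH := sgQ q0 (sg 1 k)

theorem norm_io (k : KK) : ‖io k‖ = ‖k‖ := by
  unfold io
  rw [norm_sgQ, norm_sg]

theorem key (G : HH →L[ℂ] HH) (hG : G * TQ = -(TQ * G)) :
    ∃ g : KK →L[ℂ] KK, (∀ k, G (io k) = io (g k)) ∧ g * WW = WW * g ∧ g * JJ = -(JJ * g) := by
  -- blocks of `G`
  let X : QQ → H0 →L[ℂ] H0 := fun q => (evQ q).comp (G.comp (sgQ q0))
  have hX : ∀ q (x : H0), X q (opA q0 x) = -(opA q (X q x)) := by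
    intro q x
    change G (sgQ q0 (opA q0 x)) q = -(opA q (G (sgQ q0 x) q))
    rw [← TQ_sgQ]
    have : G (TQ (sgQ q0 x)) = -(TQ (G (sgQ q0 x))) := DFunLike.congr_fun hG _
    rw [this, lp.coeFn_neg, Pi.neg_apply, TQ_apply]
  -- sign
  obtain ⟨ε, hε, hεT⟩ : ∃ ε : ℂ, (ε = 1 ∨ ε = -1) ∧ opA q0 = ε • TT := by
    rcases opA_q0 with h | h
    · exact ⟨1, Or.inl rfl, by rw [h, one_smul]⟩
    · exact ⟨-1, Or.inr rfl, by rw [h, neg_one_smul]⟩
  have hεε : ε * ε = 1 := by
    rcases hε with h | h <;> rw [h] <;> norm_num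
  have hεn : ‖ε‖ = 1 := by
    rcases hε with h | h <;> rw [h] <;> simp
  have hXT : ∀ q (x : H0), X q (TT x) = -ε • opA q (X q x) := by
    intro q x
    have h := hX q (ε • x)
    rw [hεT] at h
    change X q (ε • TT (ε • x)) = _ at h
    rw [map_smul TT, smul_smul, hεε, one_smul, map_smul (X q), map_smul (opA q)] at h
    rw [h, neg_smul]
  have hself : X q0 * MM = (-1 : ℂ) • (MM * X q0) := by
    apply MM_of_TT
    ext1 x
    change X q0 (TT x) = (-1 : ℂ) • TT (X q0 x)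
    rw [hXT, hεT]
    change -ε • ε • TT (X q0 x) = _
    rw [smul_smul, neg_mul, hεε]
  have hother : ∀ q, q ≠ q0 → ∀ k, X q (sg 1 k) = 0 := by
    intro q hq k
    obtain ⟨u, a, hu, ha, hA⟩ := opA_orb q
    have hu0 : u ≠ 0 := by
      intro h
      rw [h, norm_zero] at hu
      exact zero_ne_one hu
    by_cases ha0 : a = 0
    · subst ha0
      rw [mob_zero_eq] at hA
      have h1 : X q * MM = (-ε * u) • (MM * X q) := by
        apply MM_of_TT
        ext1 x
        change X q (TT x) = (-ε * u) • TT (X q x)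
        rw [hXT, hA]
        change -ε • u • TT (X q x) = _
        rw [smul_smul]
      have h2 : ‖-ε * u‖ = 1 := by rw [norm_mul, norm_neg, hεn, hu, one_mul]
      have h3 : (-ε * u) ^ 2 ≠ 1 := by
        intro h
        have h4 : u ^ 2 = 1 := by
          have : (-ε * u) ^ 2 = (ε * ε) * u ^ 2 := by ring
          rw [this, hεε, one_mul] at h
          exact h
        apply hq
        apply eq_q0
        rcases mul_self_eq_one_iff.1 (by rw [← sq]; exact h4 : u * u = 1) with h5 | h5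
        · left
          rw [hA, h5, one_smul]
        · right
          rw [hA, h5, neg_one_smul]
      have h5 := caseB h2 h3 h1
      have h6 : -ε * u ≠ 0 := by
        intro h
        rw [h, norm_zero] at h2
        exact zero_ne_one h2
      rw [X_sg_one h6 h1, h5]
      change sg 1 (0 : KK) = 0
      rw [map_zero]
    · have h1 : opA q (X q (sg 1 k)) = 0 := by
        have h := hXT q (sg 1 k)
        rw [TT_sg_one, map_zero] at h
        have h6 : -ε ≠ 0 := by
          intro h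
          rw [← norm_neg, h, norm_zero] at hεn
          exact zero_ne_one hεn
        exact (smul_eq_zero.1 h.symm).resolve_left h6
      rw [hA] at h1
      exact TT_eig _ a ha0 (mob_ker hu0 ha norm_TT_le h1)
  refine ⟨gX (X q0), fun k => ?_, caseA hself⟩
  ext1
  funext q
  change X q (sg 1 k) = sgQ q0 (sg 1 (gX (X q0) k)) q
  rw [sgQ_apply]
  by_cases h : q = q0
  · subst h
    rw [if_pos rfl, X_sg_one (by norm_num) hself]
  · rw [if_neg h, hother q h k]

theorem no_bounded (G G' : HH →L[ℂ] HH) (h1 : G * G' = 1) (h2 : G' * G = 1)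
    (hG : G * TQ = -(TQ * G)) (C : ℝ) (hC : ∀ n : ℕ, ‖G ^ n‖ ≤ C) (hC' : ∀ n : ℕ, ‖G' ^ n‖ ≤ C) :
    False := by
  have hG' : G' * TQ = -(TQ * G') := by
    have h : G' * (G * TQ) * G' = G' * (-(TQ * G)) * G' := by rw [hG]
    have e1 : G' * (G * TQ) * G' = TQ * G' := by rw [← mul_assoc, h2, one_mul]
    have e2 : G' * (-(TQ * G)) * G' = -(G' * TQ) := by
      rw [mul_neg, neg_mul, mul_assoc, mul_assoc, h1, mul_one]
    rw [e1, e2] at h
    rw [h, neg_neg]
  obtain ⟨g, hg, hW, hJ⟩ := key G hG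
  obtain ⟨g', hg', _, _⟩ := key G' hG'
  have hinj : ∀ k k' : KK, io k = io k' → k = k' := by
    intro k k' h
    have e : io (k - k') = io k - io k' := by
      unfold io
      rw [map_sub, map_sub]
    rw [h, sub_self] at e
    have e' := norm_io (k - k')
    rw [e, norm_zero] at e'
    exact sub_eq_zero.1 (norm_eq_zero.1 e'.symm)
  have hpow : ∀ (G : HH →L[ℂ] HH) (g : KK →L[ℂ] KK), (∀ k, G (io k) = io (g k)) →
      ∀ (n : ℕ) (k : KK), (G ^ n) (io k) = io ((g ^ n) k) := by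
    intro G g hg n
    induction n with
    | zero => intro k; rfl
    | succ n ih =>
      intro k
      rw [pow_succ', pow_succ']
      change G ((G ^ n) (io k)) = io (g ((g ^ n) k))
      rw [ih, hg]
  have hbd : ∀ (G : HH →L[ℂ] HH) (g : KK →L[ℂ] KK), (∀ k, G (io k) = io (g k)) →
      (∀ n : ℕ, ‖G ^ n‖ ≤ C) → ∀ n : ℕ, ‖g ^ n‖ ≤ C := by
    intro G g hg hC n
    have hC0 : 0 ≤ C := (norm_nonneg _).trans (hC 0)
    apply ContinuousLinearMap.opNorm_le_bound _ hC0
    intro k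
    rw [← norm_io, ← hpow G g hg, ← norm_io k]
    exact ((G ^ n).le_opNorm _).trans (mul_le_mul_of_nonneg_right (hC n) (norm_nonneg _))
  apply no_power_bounded g g' _ _ hW hJ C (hbd G g hg hC) (hbd G' g' hg' hC')
  · ext1 k
    apply hinj
    change io (g (g' k)) = io k
    rw [← hg, ← hg']
    exact DFunLike.congr_fun h1 (io k)
  · ext1 k
    apply hinj
    change io (g' (g k)) = io k
    rw [← hg', ← hg]
    exact DFunLike.congr_fun h2 (io k)

end Pool.Agent.MP_908b95_an
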