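import Pool.Agent.MP_908b95_an.Annulus

/-! The basic operator `MM` and its intertwiners. -/

namespace Pool.Agent.MP_908b95_an

open scoped ENNReal
open Complex

/-- the basic Hilbert space -/
abbrev H0 : Type := lp (fun _ : ℕ => KK) 2

/-- the coefficients of the column -/
noncomputable def BB (n : ℕ) : KK →L[ℂ] KK :=
  if n % 2 = 1 then JJ else if n % 4 = 0 then 1 else WW

theorem norm_BB_le (n : ℕ) : ‖BB n‖ ≤ 1 := by
  unfold BB
  split_ifs
  · exact norm_JJ_le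
  · exact ContinuousLinearMap.norm_id_le
  · exact norm_WW_le

theorem BB_odd (n : ℕ) : BB (2 * n + 1) = JJ := by
  unfold BB
  rw [if_pos (by omega)]

theorem BB_four (n : ℕ) : BB (4 * n) = 1 := by
  unfold BB
  rw [if_neg (by omega), if_pos (by omega)]

theorem BB_two (n : ℕ) : BB (4 * n + 2) = WW := by
  unfold BB
  rw [if_neg (by omega), if_neg (by omega)]

/-- evaluation -/
noncomputable def ev (n : ℕ) : H0 →L[ℂ] KK := lp.evalCLM ℂ (fun _ : ℕ => KK) 2 n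

/-- injection -/
noncomputable def sg (n : ℕ) : KK →L[ℂ] H0 :=
  lp.singleContinuousLinearMap ℂ (fun _ : ℕ => KK) 2 n

theorem ev_apply (n : ℕ) (x : H0) : ev n x = x n := rfl

theorem sg_apply (n m : ℕ) (k : KK) : sg n k m = if m = n then k else 0 := by
  change (lp.single (E := fun _ : ℕ => KK) 2 n k : H0) m = _
  rw [lp.single_apply]
  by_cases h : m = n
  · subst h
    simp
  · simp [h]

theorem sg_self (n : ℕ) (k : KK) : sg n k n = k := by rw [sg_apply, if_pos rfl]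

theorem sg_ne {n m : ℕ} (h : m ≠ n) (k : KK) : sg n k m = 0 := by rw [sg_apply, if_neg h]

theorem norm_sg (n : ℕ) (k : KK) : ‖sg n k‖ = ‖k‖ := by
  exact lp.norm_single (E := fun _ : ℕ => KK) (by norm_num) n k

theorem norm_coord_le (x : H0) (n : ℕ) : ‖x n‖ ≤ ‖x‖ := lp.norm_apply_le_norm (by norm_num) x n

theorem norm_ev_le (n : ℕ) : ‖ev n‖ ≤ 1 := by
  apply ContinuousLinearMap.opNorm_le_bound _ zero_le_one
  intro x
  rw [one_mul]
  exact norm_coord_le x n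

theorem norm_sg_le (n : ℕ) : ‖sg n‖ ≤ 1 := by
  apply ContinuousLinearMap.opNorm_le_bound _ zero_le_one
  intro x
  rw [one_mul, norm_sg]

/-- the terms of the series defining the operator -/
noncomputable def tm (n : ℕ) : H0 →L[ℂ] H0 :=
  (1 / 4 : ℂ) ^ n • (sg (n + 1)).comp (ev (n + 2)) +
    (1 / 2 : ℂ) ^ n • (sg (n + 1)).comp ((BB n).comp (ev 0))

theorem norm_quarter_pow (n : ℕ) : ‖(1 / 4 : ℂ) ^ n‖ = (1 / 4 : ℝ) ^ n := by
  rw [norm_pow]
  norm_num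

theorem norm_half_pow (n : ℕ) : ‖(1 / 2 : ℂ) ^ n‖ = (1 / 2 : ℝ) ^ n := by
  rw [norm_pow]
  norm_num

theorem norm_tm_le (n : ℕ) : ‖tm n‖ ≤ (1 / 4 : ℝ) ^ n + (1 / 2 : ℝ) ^ n := by
  unfold tm
  refine (norm_add_le _ _).trans ?_
  rw [norm_smul, norm_smul, norm_quarter_pow, norm_half_pow]
  have h1 : ‖(sg (n + 1)).comp (ev (n + 2))‖ ≤ 1 := by
    refine (ContinuousLinearMap.opNorm_comp_le _ _).trans ?_
    exact mul_le_one₀ (norm_sg_le _) (norm_nonneg _) (norm_ev_le _)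
  have h2 : ‖(sg (n + 1)).comp ((BB n).comp (ev 0))‖ ≤ 1 := by
    refine (ContinuousLinearMap.opNorm_comp_le _ _).trans ?_
    refine mul_le_one₀ (norm_sg_le _) (norm_nonneg _) ?_
    refine (ContinuousLinearMap.opNorm_comp_le _ _).trans ?_
    exact mul_le_one₀ (norm_BB_le _) (norm_nonneg _) (norm_ev_le _)
  have h3 : (0 : ℝ) ≤ (1 / 4 : ℝ) ^ n := by positivity
  have h4 : (0 : ℝ) ≤ (1 / 2 : ℝ) ^ n := by positivity
  exact add_le_add (mul_le_of_le_one_right h3 h1) (mul_le_of_le_one_right h4 h2)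

theorem summable_tm : Summable tm := by
  apply Summable.of_norm_bounded _ norm_tm_le
  exact (summable_geometric_of_lt_one (by norm_num) (by norm_num)).add
    (summable_geometric_of_lt_one (by norm_num) (by norm_num))

/-- the basic operator -/
noncomputable def MM : H0 →L[ℂ] H0 := ∑' n, tm n

theorem tm_apply (n m : ℕ) (x : H0) : tm n x m =
    if m = n + 1 then (1 / 4 : ℂ) ^ n • x (n + 2) + (1 / 2 : ℂ) ^ n • BB n (x 0) else 0 := by
  change ((1 / 4 : ℂ) ^ n • sg (n + 1) (x (n + 2)) + (1 / 2 : ℂ) ^ n • sg (n + 1) (BB n (x 0)) :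
    H0) m = _
  rw [lp.coeFn_add, Pi.add_apply, lp.coeFn_smul, lp.coeFn_smul, Pi.smul_apply, Pi.smul_apply,
    sg_apply, sg_apply]
  split_ifs <;> simp

theorem MM_apply (x : H0) (m : ℕ) : MM x m = ∑' n, tm n x m := by
  have h1 : MM x = ∑' n, tm n x := (ContinuousLinearMap.apply ℂ H0 x).map_tsum summable_tm
  have h2 : Summable (fun n => tm n x) :=
    ((ContinuousLinearMap.apply ℂ H0 x).hasSum summable_tm.hasSum).summable
  have h3 := (ev m).map_tsum h2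
  rw [← h1] at h3
  exact h3

theorem MM_zero (x : H0) : MM x 0 = 0 := by
  rw [MM_apply]
  simp only [tm_apply]
  simp

theorem MM_succ (x : H0) (n : ℕ) :
    MM x (n + 1) = (1 / 4 : ℂ) ^ n • x (n + 2) + (1 / 2 : ℂ) ^ n • BB n (x 0) := by
  rw [MM_apply, tsum_eq_single n]
  · rw [tm_apply, if_pos rfl]
  · intro m hm
    rw [tm_apply, if_neg (by omega)]

theorem quarter_ne (n : ℕ) : (1 / 4 : ℂ) ^ n ≠ 0 := pow_ne_zero _ (by norm_num)

theorem half_ne (n : ℕ) : (1 / 2 : ℂ) ^ n ≠ 0 := pow_ne_zero _ (by norm_num)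

theorem MM_sg_succ (l : ℕ) (k : KK) : MM (sg (l + 2) k) = (1 / 4 : ℂ) ^ l • sg (l + 1) k := by
  ext1
  funext m
  rw [lp.coeFn_smul, Pi.smul_apply]
  rcases m with _ | m
  · rw [MM_zero, sg_ne (by omega), smul_zero]
  · rw [MM_succ, sg_ne (show (0 : ℕ) ≠ l + 2 by omega), map_zero, smul_zero, add_zero]
    by_cases h : m = l
    · subst h
      rw [sg_self, sg_self]
    · rw [sg_ne (by omega), sg_ne (by omega), smul_zero, smul_zero]

theorem MM_sg_one (k : KK) : MM (sg 1 k) = 0 := by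
  ext1
  funext m
  rw [lp.coeFn_zero, Pi.zero_apply]
  rcases m with _ | m
  · rw [MM_zero]
  · rw [MM_succ, sg_ne (by omega), sg_ne (by omega), map_zero, smul_zero, smul_zero, add_zero]

theorem ker_MM (x : H0) (h : MM x = 0) : ∀ m, m ≠ 1 → x m = 0 := by
  have h1 : ∀ n, (1 / 4 : ℂ) ^ n • x (n + 2) + (1 / 2 : ℂ) ^ n • BB n (x 0) = 0 := by
    intro n
    rw [← MM_succ, h, lp.coeFn_zero, Pi.zero_apply]
  have h0 : x 0 = 0 := by
    by_contra hne
    have hpos : 0 < ‖x 0‖ := norm_pos_iff.2 hne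
    obtain ⟨k, hk⟩ := pow_unbounded_of_one_lt (‖x‖ / ‖x 0‖) (show (1 : ℝ) < 2 by norm_num)
    have e1 := h1 (2 * k + 1)
    rw [BB_odd] at e1
    have e2 : ‖(1 / 4 : ℂ) ^ (2 * k + 1) • x (2 * k + 1 + 2)‖ =
        ‖(1 / 2 : ℂ) ^ (2 * k + 1) • JJ (x 0)‖ := by
      rw [← norm_neg ((1 / 2 : ℂ) ^ (2 * k + 1) • JJ (x 0))]
      congr 1
      exact eq_neg_of_add_eq_zero_left e1
    rw [norm_smul, norm_smul, norm_quarter_pow, norm_half_pow] at e2
    have e3 : ‖x 0‖ ≤ ‖JJ (x 0)‖ := by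
      have : JJ (JJ (x 0)) = x 0 := DFunLike.congr_fun JJ_JJ (x 0)
      calc ‖x 0‖ = ‖JJ (JJ (x 0))‖ := by rw [this]
        _ ≤ ‖JJ‖ * ‖JJ (x 0)‖ := JJ.le_opNorm _
        _ ≤ 1 * ‖JJ (x 0)‖ := mul_le_mul_of_nonneg_right norm_JJ_le (norm_nonneg _)
        _ = ‖JJ (x 0)‖ := one_mul _
    have e4 := norm_coord_le x (2 * k + 1 + 2)
    have e5 : (1 / 4 : ℝ) ^ (2 * k + 1) = (1 / 2 : ℝ) ^ (2 * k + 1) * (1 / 2 : ℝ) ^ (2 * k + 1) := by
      rw [← mul_pow]
      norm_num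
    have e6 : (0 : ℝ) < (1 / 2 : ℝ) ^ (2 * k + 1) := by positivity
    have e7 : (1 / 2 : ℝ) ^ (2 * k + 1) * ‖x (2 * k + 1 + 2)‖ = ‖JJ (x 0)‖ := by
      apply mul_left_cancel₀ e6.ne'
      rw [← mul_assoc, ← e5, e2]
    have e8 : (1 / 2 : ℝ) ^ (2 * k + 1) ≤ (1 / 2 : ℝ) ^ k :=
      pow_le_pow_of_le_one (by norm_num) (by norm_num) (by omega)
    have e9 : (1 / 2 : ℝ) ^ k * 2 ^ k = 1 := by
      rw [← mul_pow]
      norm_num
    rw [div_lt_iff₀ hpos] at hk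
    have e10 : ‖x 0‖ ≤ (1 / 2 : ℝ) ^ k * ‖x‖ := by
      calc ‖x 0‖ ≤ ‖JJ (x 0)‖ := e3
        _ = (1 / 2 : ℝ) ^ (2 * k + 1) * ‖x (2 * k + 1 + 2)‖ := e7.symm
        _ ≤ (1 / 2 : ℝ) ^ k * ‖x‖ := mul_le_mul e8 e4 (norm_nonneg _) (by positivity)
    have e11 : (1 / 2 : ℝ) ^ k * ‖x‖ < (1 / 2 : ℝ) ^ k * (2 ^ k * ‖x 0‖) :=
      mul_lt_mul_of_pos_left hk (by positivity)
    rw [← mul_assoc, e9, one_mul] at e11
    linarith
  intro m hm
  rcases m with _ | m
  · exact h0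
  · rcases m with _ | m
    · exact absurd rfl hm
    · have e1 := h1 m
      rw [h0, map_zero, smul_zero, add_zero] at e1
      exact (smul_eq_zero.1 e1).resolve_left (quarter_ne m)

theorem eq_sg_of_ker (x : H0) (h : MM x = 0) : x = sg 1 (x 1) := by
  ext1
  funext m
  by_cases hm : m = 1
  · subst hm
    rw [sg_self]
  · rw [ker_MM x h m hm, sg_ne hm]

theorem eig_ne (x : H0) (a : ℂ) (ha : a ≠ 0) (h : MM x = a • x) : x = 0 := by
  have hc : ∀ m, MM x m = a • x m := by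
    intro m
    rw [h, lp.coeFn_smul, Pi.smul_apply]
  have h0 : x 0 = 0 := by
    have := hc 0
    rw [MM_zero] at this
    exact (smul_eq_zero.1 this.symm).resolve_left ha
  have h1 : ∀ n, (1 / 4 : ℂ) ^ n • x (n + 2) = a • x (n + 1) := by
    intro n
    rw [← hc, MM_succ, h0, map_zero, smul_zero, add_zero]
  have h1n : ∀ n, (1 / 4 : ℝ) ^ n * ‖x (n + 2)‖ = ‖a‖ * ‖x (n + 1)‖ := by
    intro n
    rw [← norm_quarter_pow, ← norm_smul, h1, norm_smul]
  have hpos : 0 < ‖a‖ := norm_pos_iff.2 ha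
  -- eventually the norms at least double
  obtain ⟨N, hN⟩ := pow_unbounded_of_one_lt (2 / ‖a‖) (show (1 : ℝ) < 4 by norm_num)
  have h2 : ∀ n, N ≤ n → 2 * ‖x (n + 1)‖ ≤ ‖x (n + 2)‖ := by
    intro n hn
    have e1 : (4 : ℝ) ^ N ≤ 4 ^ n := pow_le_pow_right₀ (by norm_num) hn
    rw [div_lt_iff₀ hpos] at hN
    have e2 : ‖x (n + 2)‖ = 4 ^ n * ‖a‖ * ‖x (n + 1)‖ := by
      rw [mul_assoc, ← h1n, ← mul_assoc, ← mul_pow]
      norm_num
    rw [e2]
    apply mul_le_mul_of_nonneg_right _ (norm_nonneg _)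
    nlinarith
  have h3 : ∀ n, N ≤ n → x (n + 1) = 0 := by
    intro n hn
    by_contra hne
    have hp : 0 < ‖x (n + 1)‖ := norm_pos_iff.2 hne
    have e1 : ∀ k, 2 ^ k * ‖x (n + 1)‖ ≤ ‖x (n + k + 1)‖ := by
      intro k
      induction k with
      | zero => simp
      | succ k ih =>
        have e := h2 (n + k) (by omega)
        have e' : n + (k + 1) + 1 = n + k + 2 := by omega
        rw [e', pow_succ]
        linarith
    obtain ⟨k, hk⟩ := pow_unbounded_of_one_lt (‖x‖ / ‖x (n + 1)‖) (show (1 : ℝ) < 2 by norm_num)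
    rw [div_lt_iff₀ hp] at hk
    have e2 := e1 k
    have e3 := norm_coord_le x (n + k + 1)
    linarith
  have h4 : ∀ k n, N ≤ n + k → x (n + 1) = 0 := by
    intro k
    induction k with
    | zero => intro n hn; exact h3 n (by omega)
    | succ k ih =>
      intro n hn
      have e1 := ih (n + 1) (by omega)
      have e2 := h1 n
      rw [show n + 1 + 1 = n + 2 from rfl] at e1
      rw [e1, smul_zero] at e2
      exact (smul_eq_zero.1 e2.symm).resolve_left ha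
  ext1
  funext m
  rw [lp.coeFn_zero, Pi.zero_apply]
  rcases m with _ | m
  · exact h0
  · exact h4 N m (by omega)

section intertwiner

variable (X : H0 →L[ℂ] H0) (u : ℂ)

/-- the action of an intertwiner on the kernel -/
noncomputable def gX : KK →L[ℂ] KK := (ev 1).comp (X.comp (sg 1))

/-- the lower corner of an intertwiner -/
noncomputable def dX : KK →L[ℂ] KK := (ev 0).comp (X.comp (sg 0))

theorem gX_apply (k : KK) : gX X k = X (sg 1 k) 1 := rfl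

theorem dX_apply (k : KK) : dX X k = X (sg 0 k) 0 := rfl

variable {X u}

theorem X_apply_zero (hX : X * MM = u • (MM * X)) (l : ℕ) (k : KK) : X (sg (l + 1) k) 0 = 0 := by
  have h : X (MM (sg (l + 2) k)) = u • MM (X (sg (l + 2) k)) := DFunLike.congr_fun hX _
  rw [MM_sg_succ, map_smul] at h
  have h' := congrArg (fun v : H0 => v 0) h
  simp only [lp.coeFn_smul, Pi.smul_apply, MM_zero, smul_zero] at h'
  exact (smul_eq_zero.1 h').resolve_left (quarter_ne l)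

theorem X_sg_one (hu : u ≠ 0) (hX : X * MM = u • (MM * X)) (k : KK) :
    X (sg 1 k) = sg 1 (gX X k) := by
  have h : X (MM (sg 1 k)) = u • MM (X (sg 1 k)) := DFunLike.congr_fun hX _
  rw [MM_sg_one, map_zero] at h
  exact eq_sg_of_ker _ ((smul_eq_zero.1 h.symm).resolve_left hu)

theorem X_rec (hX : X * MM = u • (MM * X)) (l n : ℕ) (k : KK) :
    (1 / 4 : ℂ) ^ l • X (sg (l + 1) k) (n + 1) =
      u • (1 / 4 : ℂ) ^ n • X (sg (l + 2) k) (n + 2) := by
  have h : X (MM (sg (l + 2) k)) = u • MM (X (sg (l + 2) k)) := DFunLike.congr_fun hX _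
  rw [MM_sg_succ, map_smul] at h
  have h' := congrArg (fun v : H0 => v (n + 1)) h
  simp only [lp.coeFn_smul, Pi.smul_apply, MM_succ] at h'
  rw [h', X_apply_zero hX (l + 1) k, map_zero, smul_zero, add_zero]

theorem X_diag (hX : X * MM = u • (MM * X)) (n : ℕ) (k : KK) :
    u ^ n • X (sg (n + 1) k) (n + 1) = gX X k := by
  induction n with
  | zero =>
    rw [pow_zero, one_smul]
    rfl
  | succ n ih =>
    have h := X_rec hX n n k
    have h2 : X (sg (n + 1) k) (n + 1) = u • X (sg (n + 2) k) (n + 2) := by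
      rw [smul_comm] at h
      exact smul_right_injective _ (quarter_ne n) h
    rw [h2, smul_smul, ← pow_succ] at ih
    exact ih

theorem X_lower (hu : u ≠ 0) (hX : X * MM = u • (MM * X)) (l : ℕ) :
    ∀ n, l < n → ∀ k : KK, X (sg (l + 1) k) (n + 1) = 0 := by
  induction l with
  | zero =>
    intro n hn k
    rw [X_sg_one hu hX, sg_ne (by omega)]
  | succ l ih =>
    intro n hn k
    obtain ⟨n', rfl⟩ := Nat.exists_eq_succ_of_ne_zero (show n ≠ 0 by omega)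
    have h := X_rec hX l n' k
    rw [ih n' (by omega) k, smul_zero] at h
    have h2 := (smul_eq_zero.1 h.symm).resolve_left hu
    exact (smul_eq_zero.1 h2).resolve_left (quarter_ne n')

theorem X_upper (hu : ‖u‖ = 1) (hX : X * MM = u • (MM * X)) (n : ℕ) :
    ∀ l, n < l → ∀ k : KK, ‖X (sg (l + 1) k) (n + 1)‖ ≤ (1 / 4 : ℝ) ^ n * (‖X‖ * ‖k‖) := by
  induction n with
  | zero =>
    intro l _ k
    rw [pow_zero, one_mul]
    refine (norm_coord_le _ _).trans ((X.le_opNorm _).trans ?_)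
    rw [norm_sg]
  | succ n ih =>
    intro l hl k
    obtain ⟨l', rfl⟩ := Nat.exists_eq_succ_of_ne_zero (show l ≠ 0 by omega)
    have h := congrArg norm (X_rec hX l' n k)
    rw [norm_smul, norm_smul, norm_smul, norm_quarter_pow, norm_quarter_pow, hu, one_mul] at h
    have h1 := ih l' (by omega) k
    have h2 : (0 : ℝ) < (1 / 4 : ℝ) ^ n := by positivity
    have h3 : (1 / 4 : ℝ) ^ l' ≤ (1 / 4 : ℝ) ^ (n + 1) :=
      pow_le_pow_of_le_one (by norm_num) (by norm_num) (by omega)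
    have h4 : (1 / 4 : ℝ) ^ n * ‖X (sg (l' + 2) k) (n + 2)‖ ≤
        (1 / 4 : ℝ) ^ n * ((1 / 4 : ℝ) ^ (n + 1) * (‖X‖ * ‖k‖)) := by
      rw [← h]
      calc (1 / 4 : ℝ) ^ l' * ‖X (sg (l' + 1) k) (n + 1)‖
          ≤ (1 / 4 : ℝ) ^ (n + 1) * ((1 / 4 : ℝ) ^ n * (‖X‖ * ‖k‖)) :=
            mul_le_mul h3 h1 (norm_nonneg _) (by positivity)
        _ = (1 / 4 : ℝ) ^ n * ((1 / 4 : ℝ) ^ (n + 1) * (‖X‖ * ‖k‖)) := by ring
    exact le_of_mul_le_mul_left h4 h2

theorem X_off (hu : ‖u‖ = 1) (hX : X * MM = u • (MM * X)) (n l : ℕ) (hnl : l ≠ n) (k : KK) :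
    ‖X (sg (l + 1) k) (n + 1)‖ ≤ (1 / 4 : ℝ) ^ n * (‖X‖ * ‖k‖) := by
  have hu0 : u ≠ 0 := by
    intro h
    rw [h, norm_zero] at hu
    exact zero_ne_one hu
  rcases lt_or_gt_of_ne hnl with h | h
  · rw [X_lower hu0 hX l n h k, norm_zero]
    positivity
  · exact X_upper hu hX n l h k

theorem hasSum_MM_sg_zero (y : KK) :
    HasSum (fun l => (1 / 2 : ℂ) ^ l • sg (l + 1) (BB l y)) (MM (sg 0 y)) := by
  have h1 := (ContinuousLinearMap.apply ℂ H0 (sg 0 y)).hasSum summable_tm.hasSum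
  have h2 : (fun l => tm l (sg 0 y)) = fun l => (1 / 2 : ℂ) ^ l • sg (l + 1) (BB l y) := by
    funext l
    change (1 / 4 : ℂ) ^ l • sg (l + 1) (sg 0 y (l + 2)) +
      (1 / 2 : ℂ) ^ l • sg (l + 1) (BB l (sg 0 y 0)) = _
    rw [sg_ne (by omega), map_zero, smul_zero, zero_add, sg_self]
  rw [← h2]
  exact h1

theorem asymp (hu : ‖u‖ = 1) (hX : X * MM = u • (MM * X)) (n : ℕ) (y : KK) :
    ‖gX X (BB n y) - u ^ (n + 1) • BB n (dX X y)‖ ≤ 3 * (1 / 2 : ℝ) ^ n * (‖X‖ * ‖y‖) := by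
  have h0 := ((ev (n + 1)).comp X).hasSum (hasSum_MM_sg_zero y)
  have hval : ((ev (n + 1)).comp X) (MM (sg 0 y)) =
      u • ((1 / 4 : ℂ) ^ n • X (sg 0 y) (n + 2) + (1 / 2 : ℂ) ^ n • BB n (dX X y)) := by
    have h : X (MM (sg 0 y)) = u • MM (X (sg 0 y)) := DFunLike.congr_fun hX _
    change X (MM (sg 0 y)) (n + 1) = _
    rw [h, lp.coeFn_smul, Pi.smul_apply, MM_succ]
    rfl
  rw [hval] at h0
  let f : ℕ → KK := fun l => (1 / 2 : ℂ) ^ l • X (sg (l + 1) (BB l y)) (n + 1)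
  have hf : HasSum f
      (u • ((1 / 4 : ℂ) ^ n • X (sg 0 y) (n + 2) + (1 / 2 : ℂ) ^ n • BB n (dX X y))) := by
    convert h0 using 1
    funext l
    change _ = X ((1 / 2 : ℂ) ^ l • sg (l + 1) (BB l y)) (n + 1)
    rw [map_smul, lp.coeFn_smul, Pi.smul_apply]
  -- remove the `n`-th term
  have hf' : HasSum (fun l => if l = n then 0 else f l)
      (u • ((1 / 4 : ℂ) ^ n • X (sg 0 y) (n + 2) + (1 / 2 : ℂ) ^ n • BB n (dX X y)) - f n) :=
    hasSum_ite_sub_hasSum hf n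
  have hbound : ‖u • ((1 / 4 : ℂ) ^ n • X (sg 0 y) (n + 2) +
      (1 / 2 : ℂ) ^ n • BB n (dX X y)) - f n‖ ≤ 2 * ((1 / 4 : ℝ) ^ n * (‖X‖ * ‖y‖)) := by
    apply tsum_of_norm_bounded ?_ ?_ |> fun h => by rw [← hf'.tsum_eq]; exact h
    · exact fun l => (1 / 2 : ℝ) ^ l * ((1 / 4 : ℝ) ^ n * (‖X‖ * ‖y‖))
    · exact hasSum_geometric_two.mul_right _
    · intro l
      by_cases hl : l = n
      · rw [if_pos hl, norm_zero]
        positivity
      · rw [if_neg hl, norm_smul, norm_half_pow]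
        apply mul_le_mul_of_nonneg_left _ (by positivity)
        refine (X_off hu hX n l hl _).trans ?_
        apply mul_le_mul_of_nonneg_left _ (by positivity)
        apply mul_le_mul_of_nonneg_left _ (norm_nonneg _)
        refine ((BB l).le_opNorm _).trans ?_
        exact mul_le_of_le_one_left (norm_nonneg _) (norm_BB_le l)
  have hg : gX X (BB n y) = (2 : ℂ) ^ n • u ^ n • f n := by
    rw [← X_diag hX n (BB n y)]
    change u ^ n • X (sg (n + 1) (BB n y)) (n + 1) =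
      (2 : ℂ) ^ n • u ^ n • (1 / 2 : ℂ) ^ n • X (sg (n + 1) (BB n y)) (n + 1)
    rw [smul_comm ((2 : ℂ) ^ n), smul_smul ((2 : ℂ) ^ n), ← mul_pow]
    norm_num
  have hid : gX X (BB n y) - u ^ (n + 1) • BB n (dX X y) =
      -((2 : ℂ) ^ n • u ^ n • (u • ((1 / 4 : ℂ) ^ n • X (sg 0 y) (n + 2) +
        (1 / 2 : ℂ) ^ n • BB n (dX X y)) - f n)) +
      (2 : ℂ) ^ n • u ^ (n + 1) • (1 / 4 : ℂ) ^ n • X (sg 0 y) (n + 2) := by
    rw [hg]
    have e2 : (2 : ℂ) ^ n * (1 / 2 : ℂ) ^ n = 1 := by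
      rw [← mul_pow]
      norm_num
    have e3 : (2 : ℂ) ^ n • u ^ n • u • (1 / 2 : ℂ) ^ n • BB n (dX X y) =
        u ^ (n + 1) • BB n (dX X y) := by
      rw [smul_smul, smul_smul, smul_smul]
      congr 1
      rw [pow_succ]
      linear_combination (u ^ n * u) * e2
    rw [← e3, smul_sub, smul_sub, smul_add, smul_add, smul_add, pow_succ]
    simp only [smul_smul]
    module
  rw [hid]
  refine (norm_add_le _ _).trans ?_
  rw [norm_neg, norm_smul, norm_smul, norm_smul, norm_smul, norm_smul, norm_pow u, norm_pow u,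
    hu, one_pow, one_pow, one_mul, one_mul, norm_quarter_pow, norm_pow]
  have e1 : ‖(2 : ℂ)‖ = 2 := by simp
  rw [e1]
  have e2 : (2 : ℝ) ^ n * (1 / 4 : ℝ) ^ n = (1 / 2 : ℝ) ^ n := by
    rw [← mul_pow]
    norm_num
  have e3 : ‖X (sg 0 y) (n + 2)‖ ≤ ‖X‖ * ‖y‖ := by
    refine (norm_coord_le _ _).trans ((X.le_opNorm _).trans ?_)
    rw [norm_sg]
  calc (2 : ℝ) ^ n * ‖u • ((1 / 4 : ℂ) ^ n • X (sg 0 y) (n + 2) +
        (1 / 2 : ℂ) ^ n • BB n (dX X y)) - f n‖ +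
        (2 : ℝ) ^ n * ((1 / 4 : ℝ) ^ n * ‖X (sg 0 y) (n + 2)‖)
      ≤ (2 : ℝ) ^ n * (2 * ((1 / 4 : ℝ) ^ n * (‖X‖ * ‖y‖))) +
        (2 : ℝ) ^ n * ((1 / 4 : ℝ) ^ n * (‖X‖ * ‖y‖)) := by gcongr
    _ = 3 * ((2 : ℝ) ^ n * (1 / 4 : ℝ) ^ n) * (‖X‖ * ‖y‖) := by ring
    _ = 3 * (1 / 2 : ℝ) ^ n * (‖X‖ * ‖y‖) := by rw [e2]

end intertwiner

end Pool.Agent.MP_908b95_an
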