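import Pool.Agent.MP_908b95_an.Local

/-! Consequences for intertwiners, the symmetry, and the normalised operator. -/

namespace Pool.Agent.MP_908b95_an

open scoped ENNReal
open Complex Filter Topology

theorem zero_of_bound {E : Type*} [NormedAddCommGroup E] {v : E} {C : ℝ}
    (h : ∀ n : ℕ, ‖v‖ ≤ C * (1 / 2 : ℝ) ^ n) : v = 0 := by
  have h1 : Tendsto (fun n : ℕ => C * (1 / 2 : ℝ) ^ n) atTop (𝓝 (C * 0)) :=
    (tendsto_pow_atTop_nhds_zero_of_lt_one (by norm_num) (by norm_num)).const_mul C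
  rw [mul_zero] at h1
  have h2 : ‖v‖ ≤ 0 := ge_of_tendsto' h1 h
  exact norm_le_zero_iff.1 h2

theorem half_pow_le {m n : ℕ} (h : m ≤ n) : (1 / 2 : ℝ) ^ n ≤ (1 / 2 : ℝ) ^ m :=
  pow_le_pow_of_le_one (by norm_num) (by norm_num) h

section

variable {X : H0 →L[ℂ] H0}

theorem asymp_le {u : ℂ} (hu : ‖u‖ = 1) (hX : X * MM = u • (MM * X)) {m n : ℕ} (h : m ≤ n)
    (y : KK) :
    ‖gX X (BB n y) - u ^ (n + 1) • BB n (dX X y)‖ ≤ 3 * (‖X‖ * ‖y‖) * (1 / 2 : ℝ) ^ m := by
  refine (asymp hu hX n y).trans ?_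
  have h1 := half_pow_le h
  have h2 : 0 ≤ ‖X‖ * ‖y‖ := by positivity
  nlinarith

theorem caseA (hX : X * MM = (-1 : ℂ) • (MM * X)) :
    gX X * WW = WW * gX X ∧ gX X * JJ = -(JJ * gX X) := by
  have hu : ‖(-1 : ℂ)‖ = 1 := by simp
  have ha : ∀ y, gX X y + dX X y = 0 := by
    intro y
    apply zero_of_bound (C := 3 * (‖X‖ * ‖y‖))
    intro k
    have h := asymp_le hu hX (show k ≤ 4 * k by omega) y
    rw [BB_four] at h
    have e : (-1 : ℂ) ^ (4 * k + 1) = -1 := by
      rw [pow_succ, pow_mul]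
      norm_num
    rw [e] at h
    simpa using h
  have hb : ∀ y, gX X (WW y) + WW (dX X y) = 0 := by
    intro y
    apply zero_of_bound (C := 3 * (‖X‖ * ‖y‖))
    intro k
    have h := asymp_le hu hX (show k ≤ 4 * k + 2 by omega) y
    rw [BB_two] at h
    have e : (-1 : ℂ) ^ (4 * k + 2 + 1) = -1 := by
      rw [show 4 * k + 2 + 1 = 4 * k + 3 from rfl, pow_add, pow_mul]
      norm_num
    rw [e] at h
    simpa using h
  have hc : ∀ y, gX X (JJ y) - JJ (dX X y) = 0 := by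
    intro y
    apply zero_of_bound (C := 3 * (‖X‖ * ‖y‖))
    intro k
    have h := asymp_le hu hX (show k ≤ 2 * k + 1 by omega) y
    rw [BB_odd] at h
    have e : (-1 : ℂ) ^ (2 * k + 1 + 1) = 1 := by
      rw [show 2 * k + 1 + 1 = 2 * (k + 1) by ring, pow_mul]
      norm_num
    rw [e, one_smul] at h
    exact h
  have hd : ∀ y, dX X y = -gX X y := fun y => eq_neg_of_add_eq_zero_right (ha y)
  constructor
  · ext1 y
    change gX X (WW y) = WW (gX X y)
    have := hb y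
    rw [hd, map_neg, ← sub_eq_add_neg] at this
    exact sub_eq_zero.1 this
  · ext1 y
    change gX X (JJ y) = -(JJ (gX X y))
    have := hc y
    rw [hd, map_neg] at this
    exact sub_eq_zero.1 this

theorem caseB {u : ℂ} (hu : ‖u‖ = 1) (hu2 : u ^ 2 ≠ 1) (hX : X * MM = u • (MM * X)) :
    gX X = 0 := by
  have hd : ∀ y, JJ (dX X y) = 0 := by
    intro y
    have h1 : (1 - u ^ 2) • JJ (dX X y) = 0 := by
      apply zero_of_bound (C := 6 * (‖X‖ * ‖y‖))
      intro k
      have e1 := asymp_le hu hX (show k ≤ 2 * k + 1 by omega) y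
      have e2 := asymp_le hu hX (show k ≤ 2 * (k + 1) + 1 by omega) y
      rw [BB_odd] at e1 e2
      have e3 : ‖(1 - u ^ 2) • JJ (dX X y)‖ =
          ‖u ^ (2 * k + 1 + 1) • ((1 - u ^ 2) • JJ (dX X y))‖ := by
        rw [norm_smul (u ^ (2 * k + 1 + 1)), norm_pow, hu, one_pow, one_mul]
      have e4 : u ^ (2 * k + 1 + 1) • ((1 - u ^ 2) • JJ (dX X y)) =
          (gX X (JJ y) - u ^ (2 * (k + 1) + 1 + 1) • JJ (dX X y)) -
          (gX X (JJ y) - u ^ (2 * k + 1 + 1) • JJ (dX X y)) := by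
        rw [smul_smul, sub_sub_sub_cancel_left, ← sub_smul]
        congr 1
        ring
      rw [e3, e4]
      refine (norm_sub_le _ _).trans ?_
      linarith
    exact (smul_eq_zero.1 h1).resolve_left (sub_ne_zero.2 (Ne.symm hu2))
  have hg : ∀ y, gX X (JJ y) = 0 := by
    intro y
    apply zero_of_bound (C := 3 * (‖X‖ * ‖y‖))
    intro k
    have e1 := asymp_le hu hX (show k ≤ 2 * k + 1 by omega) y
    rw [BB_odd, hd, smul_zero, sub_zero] at e1
    exact e1
  ext1 y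
  have : JJ (JJ y) = y := DFunLike.congr_fun JJ_JJ y
  rw [← this, hg]
  rfl

end

/-- the symmetry -/
noncomputable def GG : H0 →L[ℂ] H0 :=
  wc (Equiv.refl ℕ) (fun m => (-1 : ℂ) ^ (m + 1) • WW) 1 (fun m => by
    rw [norm_smul, norm_pow, norm_neg, norm_one, one_pow, one_mul]
    exact norm_WW_le)

/-- its inverse -/
noncomputable def GI : H0 →L[ℂ] H0 :=
  wc (Equiv.refl ℕ) (fun m => (-1 : ℂ) ^ (m + 1) • WI) 2 (fun m => by
    rw [norm_smul, norm_pow, norm_neg, norm_one, one_pow, one_mul]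
    exact norm_WI_le)

theorem GG_apply (x : H0) (m : ℕ) : GG x m = (-1 : ℂ) ^ (m + 1) • WW (x m) := rfl

theorem GI_apply (x : H0) (m : ℕ) : GI x m = (-1 : ℂ) ^ (m + 1) • WI (x m) := rfl

theorem norm_GG_le : ‖GG‖ ≤ 1 := wc_norm_le _ _ _ zero_le_one _

theorem norm_GI_le : ‖GI‖ ≤ 2 := wc_norm_le _ _ _ zero_le_two _

theorem sign_sq (m : ℕ) : (-1 : ℂ) ^ m * (-1 : ℂ) ^ m = 1 := by
  rw [← mul_pow]
  simp

theorem GG_GI : GG * GI = 1 := by
  ext1 x
  ext1
  funext m
  change GG (GI x) m = x m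
  have h : WW (WI (x m)) = x m := DFunLike.congr_fun WW_WI (x m)
  rw [GG_apply, GI_apply, map_smul, smul_smul, sign_sq, one_smul, h]

theorem GI_GG : GI * GG = 1 := by
  ext1 x
  ext1
  funext m
  change GI (GG x) m = x m
  have h : WI (WW (x m)) = x m := DFunLike.congr_fun WI_WW (x m)
  rw [GI_apply, GG_apply, map_smul, smul_smul, sign_sq, one_smul, h]

theorem WW_BB (n : ℕ) : (-1 : ℂ) ^ n • (WW * BB n) = BB n * WW := by
  rcases Nat.even_or_odd n with h | h
  · rw [h.neg_one_pow, one_smul]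
    unfold BB
    rw [if_neg (by have := Nat.even_iff.1 h; omega)]
    split_ifs
    · rw [mul_one, one_mul]
    · rfl
  · rw [h.neg_one_pow]
    unfold BB
    rw [if_pos (Nat.odd_iff.1 h), JJ_WW]
    simp

theorem GG_MM : GG * MM = -(MM * GG) := by
  ext1 x
  ext1
  funext m
  change GG (MM x) m = -(MM (GG x) m)
  rcases m with _ | m
  · rw [GG_apply, MM_zero, MM_zero, map_zero, smul_zero, neg_zero]
  · rw [GG_apply, MM_succ, MM_succ, GG_apply, GG_apply, map_add, map_smul, map_smul, map_smul]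
    have h : BB m (WW (x 0)) = (-1 : ℂ) ^ m • WW (BB m (x 0)) :=
      (DFunLike.congr_fun (WW_BB m) (x 0)).symm
    rw [h, zero_add, pow_one, smul_add, neg_add]
    congr 1
    · rw [smul_comm, ← smul_neg, ← neg_smul]
      congr 2
      rw [show m + 2 + 1 = m + 1 + 2 from rfl, pow_add _ (m + 1) 2, pow_succ _ (m + 1)]
      norm_num
    · rw [smul_comm, ← smul_neg, smul_smul, smul_smul, ← neg_smul, smul_smul]
      congr 1
      rw [pow_add]
      ring

/-- the scaling factor -/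
noncomputable def sc : ℝ := (‖MM‖ + 1)⁻¹

theorem sc_pos : 0 < sc := by
  unfold sc
  have := norm_nonneg MM
  positivity

/-- the normalised operator -/
noncomputable def TT : H0 →L[ℂ] H0 := (sc : ℂ) • MM

theorem sc_ne : (sc : ℂ) ≠ 0 := by
  simpa using sc_pos.ne'

theorem norm_TT_le : ‖TT‖ ≤ 1 := by
  unfold TT
  rw [norm_smul, Complex.norm_real, Real.norm_of_nonneg sc_pos.le]
  unfold sc
  rw [inv_mul_le_iff₀ (by have := norm_nonneg MM; positivity)]
  linarith

theorem TT_eig (x : H0) (a : ℂ) (ha : a ≠ 0) (h : TT x = a • x) : x = 0 := by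
  apply eig_ne x ((sc : ℂ)⁻¹ * a) (mul_ne_zero (inv_ne_zero sc_ne) ha)
  rw [mul_smul, ← h]
  change _ = (sc : ℂ)⁻¹ • (sc : ℂ) • MM x
  rw [inv_smul_smul₀ sc_ne]

theorem MM_of_TT {X : H0 →L[ℂ] H0} {u : ℂ} (h : X * TT = u • (TT * X)) :
    X * MM = u • (MM * X) := by
  unfold TT at h
  rw [mul_smul_comm, smul_mul_assoc, smul_comm u] at h
  exact smul_right_injective _ sc_ne h

theorem GG_TT : GG * TT = -(TT * GG) := by
  unfold TT
  rw [mul_smul_comm, smul_mul_assoc, GG_MM, smul_neg]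

theorem TT_sg_one (k : KK) : TT (sg 1 k) = 0 := by
  change (sc : ℂ) • MM (sg 1 k) = 0
  rw [MM_sg_one, smul_zero]

end Pool.Agent.MP_908b95_an
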