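import Mathlib

/-! Operators on Hilbert sums used for MP_908b95_an. -/

namespace Pool.Agent.MP_908b95_an

open scoped ENNReal

section basic

variable {Q : Type*} {E : Type*} [NormedAddCommGroup E]

theorem two_toReal_pos : 0 < (2 : ℝ≥0∞).toReal := by norm_num

theorem summable_sq (f : lp (fun _ : Q => E) 2) : Summable (fun q => ‖f q‖ ^ 2) := by
  have := (lp.memℓp f).summable two_toReal_pos
  simpa using this

theorem norm_sq_eq (f : lp (fun _ : Q => E) 2) : ‖f‖ ^ 2 = ∑' q, ‖f q‖ ^ 2 := by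
  have := lp.norm_rpow_eq_tsum two_toReal_pos f
  simpa using this

theorem memlp_of_summable {f : Q → E} (h : Summable (fun q => ‖f q‖ ^ 2)) :
    Memℓp (fun q => f q) (2 : ℝ≥0∞) := by
  apply memℓp_gen
  simpa using h

end basic

section wc

variable {Q : Type*} {E : Type*} [NormedAddCommGroup E] [InnerProductSpace ℂ E]

theorem wc_le (π : Q ≃ Q) (A : Q → E →L[ℂ] E) (C : ℝ) (hA : ∀ q, ‖A q‖ ≤ C)
    (f : lp (fun _ : Q => E) 2) (q : Q) : ‖A q (f (π q))‖ ^ 2 ≤ C ^ 2 * ‖f (π q)‖ ^ 2 := by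
  rw [← mul_pow]
  exact pow_le_pow_left₀ (norm_nonneg _) (((A q).le_opNorm _).trans
    (mul_le_mul_of_nonneg_right (hA q) (norm_nonneg _))) 2

theorem wc_summable' (π : Q ≃ Q) (C : ℝ) (f : lp (fun _ : Q => E) 2) :
    Summable (fun q => C ^ 2 * ‖f (π q)‖ ^ 2) :=
  ((Equiv.summable_iff π).2 (summable_sq f)).mul_left _

theorem wc_summable (π : Q ≃ Q) (A : Q → E →L[ℂ] E) (C : ℝ) (hA : ∀ q, ‖A q‖ ≤ C)
    (f : lp (fun _ : Q => E) 2) : Summable (fun q => ‖A q (f (π q))‖ ^ 2) :=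
  Summable.of_nonneg_of_le (fun _ => sq_nonneg _) (fun q => wc_le π A C hA f q)
    (wc_summable' π C f)

/-- The operator `(f_q) ↦ (A_q f_{π q})`. -/
noncomputable def wc (π : Q ≃ Q) (A : Q → E →L[ℂ] E) (C : ℝ) (hA : ∀ q, ‖A q‖ ≤ C) :
    lp (fun _ : Q => E) 2 →L[ℂ] lp (fun _ : Q => E) 2 :=
  LinearMap.mkContinuous
  { toFun := fun f => ⟨fun q => A q (f (π q)), memlp_of_summable (wc_summable π A C hA f)⟩
    map_add' := fun f g => by
      ext q
      change A q ((f + g) (π q)) = A q (f (π q)) + A q (g (π q))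
      rw [lp.coeFn_add, Pi.add_apply, map_add]
    map_smul' := fun c f => by
      ext q
      change A q ((c • f) (π q)) = c • A q (f (π q))
      rw [lp.coeFn_smul, Pi.smul_apply, map_smul] } |C| (fun f => by
    have h0 : ‖(⟨fun q => A q (f (π q)), memlp_of_summable (wc_summable π A C hA f)⟩ :
        lp (fun _ : Q => E) 2)‖ ^ 2 ≤ (|C| * ‖f‖) ^ 2 := by
      rw [norm_sq_eq, mul_pow, sq_abs, norm_sq_eq f]
      have h1 : ∑' q, ‖f q‖ ^ 2 = ∑' q, ‖f (π q)‖ ^ 2 :=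
        (Equiv.tsum_eq π (fun q => ‖f q‖ ^ 2)).symm
      rw [h1, ← tsum_mul_left]
      exact Summable.tsum_le_tsum (fun q => wc_le π A C hA f q) (wc_summable π A C hA f)
        (wc_summable' π C f)
    exact le_of_sq_le_sq h0 (by positivity))

theorem wc_apply (π : Q ≃ Q) (A : Q → E →L[ℂ] E) (C : ℝ) (hA : ∀ q, ‖A q‖ ≤ C)
    (f : lp (fun _ : Q => E) 2) (q : Q) : wc π A C hA f q = A q (f (π q)) := rfl

theorem wc_norm_le (π : Q ≃ Q) (A : Q → E →L[ℂ] E) (C : ℝ) (hC : 0 ≤ C) (hA : ∀ q, ‖A q‖ ≤ C) :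
    ‖wc π A C hA‖ ≤ C := by
  refine (LinearMap.mkContinuous_norm_le _ (abs_nonneg C) _).trans ?_
  rw [abs_of_nonneg hC]

end wc

end Pool.Agent.MP_908b95_an
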